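import Mathlib

set_option autoImplicit false

open MeasureTheory Filter Topology
open scoped ENNReal NNReal

namespace Pool.Agent.Work.MP_b21e06_an

/-- A pure searcher strategy in the unit interval: the next guess, as a function of the list of
answers received so far (most recent answer first).  The answer to a guess `g` made while the
hider is at `h` is `SignType.sign (h - g)`, which is `1` if `g < h`, is `-1` if `h < g`, and is
`0` if `g = h`. -/
abbrev Searcher : Type := List SignType → unitInterval

/-- A pure strategy of the mobile hider: `pos G` is the position of the hider after the guesses in
the list `G` have been made (most recent guess first).  It has to be consistent with all the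
answers given before: the position after the further guesses `L` compares with the guess `g` in
the same way as the position at the time of the guess `g`. -/
structure Hider where
  pos : List unitInterval → unitInterval
  consistent : ∀ (L G : List unitInterval) (g : unitInterval),
    SignType.sign ((pos (L ++ g :: G) : ℝ) - g) = SignType.sign ((pos G : ℝ) - g)

/-- Borel measurability of a hider strategy: for each `n`, the position after `n` guesses is a
measurable function of these guesses. -/
def Hider.IsMeasurable (τ : Hider) : Prop :=
  ∀ n : ℕ, Measurable fun v : Fin n → unitInterval => τ.pos (List.ofFn v)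

/-- The hider who never moves. -/
def Hider.still (h : unitInterval) : Hider := ⟨fun _ => h, fun _ _ _ => rfl⟩

/-- The guesses and the answers of the first `n` rounds, most recent first. -/
noncomputable def run (s : Searcher) (τ : Hider) : ℕ → List unitInterval × List SignType
  | 0 => ([], [])
  | n + 1 =>
    (s (run s τ n).2 :: (run s τ n).1,
      SignType.sign ((τ.pos (run s τ n).1 : ℝ) - s (run s τ n).2) :: (run s τ n).2)

/-- The guess of round `n`. -/
noncomputable def guess (s : Searcher) (τ : Hider) (n : ℕ) : ℝ := s (run s τ n).2

/-- The position of the hider in round `n`. -/
noncomputable def hpos (s : Searcher) (τ : Hider) (n : ℕ) : ℝ := τ.pos (run s τ n).1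

/-- The payoff to the hider: the sum of the distances of all guesses to the limit of the
positions of the hider, and `⊤` if this limit does not exist. -/
noncomputable def payoff (s : Searcher) (τ : Hider) : ℝ≥0∞ :=
  ⨅ (x : ℝ) (_ : Tendsto (hpos s τ) atTop (𝓝 x)), ∑' n, ENNReal.ofReal |guess s τ n - x|

/-- The state `(a, b, k)` of the searcher who uses the parameters `lam`, after the given
answers: `[a, b]` is the interval of the values still consistent with the answers and `k` is the
number of guesses that were too low minus the number of guesses that were too high.  The guess
in the state `(a, b, k)` is `lam k * a + (1 - lam k) * b`. -/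
noncomputable def alpernState (lam : ℤ → ℝ) : List SignType → ℝ × ℝ × ℤ
  | [] => (0, 1, 0)
  | c :: A =>
    let x := alpernState lam A
    let g := lam x.2.2 * x.1 + (1 - lam x.2.2) * x.2.1
    if c = 1 then (g, x.2.1, x.2.2 + 1)
    else if c = -1 then (x.1, g, x.2.2 - 1)
    else (g, g, x.2.2)

/-- The searcher strategy with parameters `lam` (the projection to `[0, 1]` only matters if some
`lam k` is outside `[0, 1]`). -/
noncomputable def alpern (lam : ℤ → ℝ) : Searcher := fun A =>
  let x := alpernState lam A
  Set.projIcc 0 1 zero_le_one (lam x.2.2 * x.1 + (1 - lam x.2.2) * x.2.1)

/-- `lam` are the parameters of Alpern's strategy, and `v` is its payoff: all `lam k` are in the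
open unit interval, and the payoff against a hider who never moves is `v`, wherever he hides
outside the countable set of all guesses of the strategy. -/
def IsAlpern (lam : ℤ → ℝ) (v : ℝ≥0) : Prop :=
  (∀ k, 0 < lam k ∧ lam k < 1) ∧
  ∀ h : unitInterval, (∀ A, alpern lam A ≠ h) → payoff (alpern lam) (Hider.still h) = v

end Pool.Agent.Work.MP_b21e06_an
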