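import Mathlib

set_option autoImplicit false

open Filter Topology

namespace Pool.Agent.Work.MP_b21e06_an

/-- Positive part of the integer `k`. -/
noncomputable def base (k : ℤ) : ℝ := max (k : ℝ) 0

/-- Shapley operator of the stage game (value at the crossing point). -/
noncomputable def T (U : ℤ → ℝ) (k : ℤ) : ℝ :=
  U (k + 1) * (1 + U (k - 1)) / (U (k + 1) - k + (1 + U (k - 1)))

theorem base_nonneg (k : ℤ) : 0 ≤ base k := le_max_right _ _
theorem le_base (k : ℤ) : (k : ℝ) ≤ base k := le_max_left _ _

section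
variable {U : ℤ → ℝ}

theorem P_nonneg (hU : ∀ k, base k ≤ U k) (k : ℤ) : 0 ≤ U (k + 1) :=
  (base_nonneg _).trans (hU _)

theorem P_gt (hU : ∀ k, base k ≤ U k) (k : ℤ) : (k : ℝ) + 1 ≤ U (k + 1) := by
  have := (le_base (k + 1)).trans (hU _)
  push_cast at this
  exact this

theorem Q_ge_one (hU : ∀ k, base k ≤ U k) (k : ℤ) : 1 ≤ 1 + U (k - 1) := by
  have := (base_nonneg (k - 1)).trans (hU _)
  linarith

theorem Q_ge (hU : ∀ k, base k ≤ U k) (k : ℤ) : (k : ℝ) ≤ 1 + U (k - 1) := by
  have := (le_base (k - 1)).trans (hU _)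
  push_cast at this
  linarith

theorem den_pos (hU : ∀ k, base k ≤ U k) (k : ℤ) : 1 ≤ U (k + 1) - k + (1 + U (k - 1)) := by
  have h1 := P_gt hU k
  have h2 := Q_ge_one hU k
  linarith

end

theorem T_mono {U W : ℤ → ℝ} (hU : ∀ k, base k ≤ U k) (hUW : ∀ k, U k ≤ W k) (k : ℤ) :
    T U k ≤ T W k := by
  have hW : ∀ k, base k ≤ W k := fun k => (hU k).trans (hUW k)
  have d1 := den_pos hU k
  have d2 := den_pos hW k
  unfold T
  rw [div_le_div_iff₀ (by linarith) (by linarith)]
  set P := U (k + 1)
  set Q := 1 + U (k - 1)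
  set P' := W (k + 1) with hP'
  set Q' := 1 + W (k - 1) with hQ'
  have hPP : P ≤ P' := hUW _
  have hQQ : Q ≤ Q' := by
    have := hUW (k - 1)
    simp only [Q, Q']; linarith
  have h1 : (k : ℝ) + 1 ≤ P := P_gt hU k
  have h2 : (k : ℝ) ≤ Q' := Q_ge hW k
  have h3 : 0 ≤ P' := P_nonneg hW k
  have h4 : 1 ≤ Q := Q_ge_one hU k
  have e : P' * Q' * (P - k + Q) - P * Q * (P' - k + Q') =
      P' * (P - k) * (Q' - Q) + Q * (Q' - k) * (P' - P) := by ring
  have h5 : 0 ≤ P' * (P - k) * (Q' - Q) :=
    mul_nonneg (mul_nonneg h3 (by linarith)) (by linarith)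
  have h6 : 0 ≤ Q * (Q' - k) * (P' - P) :=
    mul_nonneg (mul_nonneg (by linarith) (by linarith)) (by linarith)
  linarith

theorem base_le_T {U : ℤ → ℝ} (hU : ∀ k, base k ≤ U k) (k : ℤ) : base k ≤ T U k := by
  have d1 := den_pos hU k
  have h1 := P_gt hU k
  have h2 := Q_ge hU k
  have h3 := P_nonneg hU k
  have h4 := Q_ge_one hU k
  unfold base T
  apply max_le
  · rw [le_div_iff₀ (by linarith)]
    nlinarith [mul_nonneg (by linarith : 0 ≤ U (k + 1) - k) (by linarith : 0 ≤ 1 + U (k - 1) - k)]
  · apply div_nonneg (mul_nonneg h3 (by linarith)) (by linarith)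

theorem T_le_base {U : ℤ → ℝ} (hU : ∀ k, base k ≤ U k) (hU' : ∀ k, U k ≤ base k + 1) (k : ℤ) :
    T U k ≤ base k + 1 := by
  have h := T_mono hU hU' k
  refine h.trans ?_
  have hW : ∀ k, base k ≤ base k + 1 := fun k => by linarith
  have d := den_pos hW k
  unfold T
  rw [div_le_iff₀ (by linarith)]
  beta_reduce
  rcases lt_trichotomy k 0 with hk | hk | hk
  · have e1 : base (k + 1) = 0 := by
      unfold base
      apply max_eq_right
      have : (k + 1 : ℤ) ≤ 0 := by omega
      exact_mod_cast this
    have e2 : base (k - 1) = 0 := by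
      unfold base
      apply max_eq_right
      have : (k - 1 : ℤ) ≤ 0 := by omega
      exact_mod_cast this
    have e3 : base k = 0 := by
      unfold base
      apply max_eq_right
      exact_mod_cast hk.le
    have hk' : (k : ℝ) < 0 := by exact_mod_cast hk
    rw [e1, e2, e3]
    linarith
  · subst hk
    simp [base]
    norm_num
  · have e1 : base (k + 1) = k + 1 := by
      unfold base
      push_cast
      apply max_eq_left
      have : (0 : ℝ) < k := by exact_mod_cast hk
      linarith
    have e2 : base (k - 1) = k - 1 := by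
      unfold base
      push_cast
      apply max_eq_left
      have : (1 : ℝ) ≤ k := by exact_mod_cast hk
      linarith
    have e3 : base k = k := by
      unfold base
      apply max_eq_left
      exact_mod_cast hk.le
    have hk' : (1 : ℝ) ≤ k := by exact_mod_cast hk
    rw [e1, e2, e3]
    nlinarith

theorem T_symm {U : ℤ → ℝ} (hU : ∀ k, base k ≤ U k) (hs : ∀ k, U (-k) = U k - k) (k : ℤ) :
    T U (-k) = T U k - k := by
  have d := den_pos hU k
  have d' := den_pos hU (-k)
  have e1 : U (-k + 1) = U (k - 1) - (k - 1) := by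
    have := hs (k - 1)
    push_cast at this
    rw [← this]; congr 1; ring
  have e2 : U (-k - 1) = U (k + 1) - (k + 1) := by
    have := hs (k + 1)
    push_cast at this
    rw [← this]; congr 1; ring
  unfold T
  rw [e1, e2] at *
  push_cast at *
  have : U (k - 1) - (k - 1) - -(k : ℝ) + (1 + (U (k + 1) - (k + 1))) =
      U (k + 1) - k + (1 + U (k - 1)) := by ring
  rw [this]
  field_simp
  ring

theorem base_symm (k : ℤ) : base (-k) = base k - k := by
  unfold base
  push_cast
  rcases le_total 0 (k : ℝ) with h | h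
  · rw [max_eq_right (by linarith), max_eq_left h]; ring
  · rw [max_eq_left (by linarith), max_eq_right h]; ring

/-- Value iteration from below. -/
noncomputable def Vn (n : ℕ) : ℤ → ℝ := T^[n] base

theorem Vn_succ (n : ℕ) : Vn (n + 1) = T (Vn n) := Function.iterate_succ_apply' _ _ _

theorem base_le_Vn (n : ℕ) : ∀ k, base k ≤ Vn n k := by
  induction n with
  | zero => intro k; exact le_rfl
  | succ n ih => intro k; rw [Vn_succ]; exact base_le_T ih k

theorem Vn_le (n : ℕ) : ∀ k, Vn n k ≤ base k + 1 := by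
  induction n with
  | zero => intro k; show base k ≤ _; linarith
  | succ n ih => intro k; rw [Vn_succ]; exact T_le_base (base_le_Vn n) ih k

theorem Vn_mono_succ (n : ℕ) : ∀ k, Vn n k ≤ Vn (n + 1) k := by
  induction n with
  | zero => intro k; rw [Vn_succ]; exact base_le_T (fun _ => le_rfl) k
  | succ n ih =>
    intro k
    rw [Vn_succ (n + 1)]
    conv_lhs => rw [Vn_succ]
    exact T_mono (base_le_Vn n) ih k

theorem Vn_mono (k : ℤ) : Monotone (fun n => Vn n k) := monotone_nat_of_le_succ fun n =>
  Vn_mono_succ n k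

theorem Vn_symm (n : ℕ) : ∀ k, Vn n (-k) = Vn n k - k := by
  induction n with
  | zero => exact base_symm
  | succ n ih => intro k; rw [Vn_succ]; exact T_symm (base_le_Vn n) ih k

/-- The limiting value function. -/
noncomputable def V (k : ℤ) : ℝ := ⨆ n, Vn n k

theorem bdd (k : ℤ) : BddAbove (Set.range fun n => Vn n k) :=
  ⟨base k + 1, by rintro _ ⟨n, rfl⟩; exact Vn_le n k⟩

theorem tendsto_Vn (k : ℤ) : Tendsto (fun n => Vn n k) atTop (𝓝 (V k)) :=
  tendsto_atTop_ciSup (Vn_mono k) (bdd k)

theorem Vn_le_V (n : ℕ) (k : ℤ) : Vn n k ≤ V k := le_ciSup (bdd k) n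

theorem base_le_V (k : ℤ) : base k ≤ V k := (base_le_Vn 0 k).trans (Vn_le_V 0 k)

theorem V_le (k : ℤ) : V k ≤ base k + 1 := ciSup_le fun n => Vn_le n k

theorem V_symm (k : ℤ) : V (-k) = V k - k := by
  have h1 := tendsto_Vn (-k)
  have h2 := (tendsto_Vn k).sub_const (k : ℝ)
  have h3 : (fun n => Vn n (-k)) = fun n => Vn n k - k := by
    funext n; exact Vn_symm n k
  rw [h3] at h1
  exact tendsto_nhds_unique h1 h2

theorem T_V (k : ℤ) : T V k = V k := by
  have hV := base_le_V
  have d := den_pos hV k
  have h1 := (tendsto_Vn k).comp (tendsto_add_atTop_nat 1)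
  have h2 : Tendsto (fun n => T (Vn n) k) atTop (𝓝 (T V k)) := by
    unfold T
    apply Tendsto.div
    · exact (tendsto_Vn (k + 1)).mul ((tendsto_Vn (k - 1)).const_add 1)
    · exact ((tendsto_Vn (k + 1)).sub_const _).add ((tendsto_Vn (k - 1)).const_add 1)
    · linarith
  have h3 : (fun n => T (Vn n) k) = (fun n => Vn n k) ∘ (fun n => n + 1) := by
    funext n
    simp only [Function.comp]
    rw [Vn_succ]
  rw [h3] at h2
  exact tendsto_nhds_unique h2 h1

/-- Relative guessing point for the continuation values `U`. -/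
noncomputable def gam (U : ℤ → ℝ) (k : ℤ) : ℝ := U (k + 1) / (U (k + 1) - k + (1 + U (k - 1)))

theorem V_pos (k : ℤ) : 0 < V k := by
  have step : ∀ k, 0 < V (k + 1) → 0 < V k := by
    intro k hk
    rw [← T_V k]
    unfold T
    have h := den_pos base_le_V k
    have h2 := Q_ge_one base_le_V k
    exact div_pos (mul_pos hk (by linarith)) (by linarith)
  have hpos : ∀ n : ℕ, 0 < V (1 - n) := by
    intro n
    induction n with
    | zero =>
      have := (le_base 1).trans (base_le_V 1)
      push_cast at this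
      simpa using lt_of_lt_of_le one_pos this
    | succ n ih =>
      apply step
      have : (1 - ((n + 1 : ℕ) : ℤ)) + 1 = 1 - n := by push_cast; ring
      rw [this]; exact ih
  rcases le_or_gt k 1 with h | h
  · have := hpos (1 - k).toNat
    have e : (1 - (((1 - k).toNat : ℕ) : ℤ)) = k := by
      rw [Int.toNat_of_nonneg (by omega)]; ring
    rwa [e] at this
  · have h2 := (le_base k).trans (base_le_V k)
    have : (1 : ℝ) < k := by exact_mod_cast h
    linarith

theorem V_gt (k : ℤ) : (k : ℝ) < V k := by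
  have := V_pos (-k)
  rw [V_symm] at this
  linarith

/-- Strictness condition used for interior guessing points. -/
def Good (U : ℤ → ℝ) : Prop := ∀ k, base k < U k

theorem good_V : Good V := fun k => max_lt (V_gt k) (V_pos k)

theorem gam_pos {U : ℤ → ℝ} (hU : Good U) (k : ℤ) : 0 < gam U k := by
  have h := den_pos (fun k => (hU k).le) k
  have h2 := (base_nonneg (k + 1)).trans_lt (hU (k + 1))
  exact div_pos h2 (by linarith)

theorem gam_lt_one {U : ℤ → ℝ} (hU : Good U) (k : ℤ) : gam U k < 1 := by
  have h := den_pos (fun k => (hU k).le) k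
  have h3 := (le_base (k - 1)).trans_lt (hU (k - 1))
  push_cast at h3
  unfold gam
  rw [div_lt_one (by linarith)]
  linarith

theorem T_eq_low {U : ℤ → ℝ} (k : ℤ) :
    T U k = gam U k * (1 + U (k - 1)) := by
  unfold T gam
  rw [div_mul_eq_mul_div]

theorem T_eq_high {U : ℤ → ℝ} (hU : ∀ k, base k ≤ U k) (k : ℤ) :
    T U k = k * gam U k + (1 - gam U k) * U (k + 1) := by
  have h := den_pos hU k
  unfold T gam
  have : U (k + 1) - k + (1 + U (k - 1)) ≠ 0 := by linarith
  field_simp
  ring

theorem good_T {U : ℤ → ℝ} (hU : Good U) : Good (T U) := by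
  intro k
  have h0 := gam_pos hU k
  have h1 := gam_lt_one hU k
  have hU' : ∀ k, base k ≤ U k := fun k => (hU k).le
  apply max_lt
  · rw [T_eq_high hU']
    have h2 := P_gt hU' k
    nlinarith
  · rw [T_eq_low]
    have h2 := Q_ge_one hU' k
    exact mul_pos h0 (by linarith)

/-- weights -/
noncomputable def w (k : ℤ) : ℝ := (3 / 2) ^ k.natAbs

theorem w_pos (k : ℤ) : 0 < w k := by unfold w; positivity

theorem w_high {k : ℤ} (hk : 0 ≤ k) : w (k + 1) = 3 / 2 * w k := by
  unfold w
  have : (k + 1).natAbs = k.natAbs + 1 := by omega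
  rw [this, pow_succ]; ring

theorem w_high' {k : ℤ} (hk : k < 0) : w (k + 1) = 2 / 3 * w k := by
  unfold w
  have : k.natAbs = (k + 1).natAbs + 1 := by omega
  rw [this, pow_succ]; ring

theorem w_symm (k : ℤ) : w (-k) = w k := by unfold w; rw [Int.natAbs_neg]

theorem gam_symm (k : ℤ) : gam V (-k) = 1 - gam V k := by
  have d := den_pos base_le_V k
  have e1 : V (-k + 1) = V (k - 1) - (k - 1) := by
    have := V_symm (k - 1)
    push_cast at this
    rw [← this]; congr 1; ring
  have e2 : V (-k - 1) = V (k + 1) - (k + 1) := by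
    have := V_symm (k + 1)
    push_cast at this
    rw [← this]; congr 1; ring
  unfold gam
  rw [e1, e2]
  have : V (k - 1) - (k - 1) - ((-k : ℤ) : ℝ) + (1 + (V (k + 1) - (k + 1))) =
      V (k + 1) - k + (1 + V (k - 1)) := by push_cast; ring
  rw [this]
  have : V (k + 1) - k + (1 + V (k - 1)) ≠ 0 := by linarith
  field_simp
  ring

/-- For positive `k` the high side is short. -/
theorem gam_near_one {k : ℤ} (hk : 1 ≤ k) : 1 - gam V k ≤ 1 / 3 := by
  have d := den_pos base_le_V k
  have h1 := P_gt base_le_V k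
  have h2 : V (k - 1) ≤ k := by
    have := V_le (k - 1)
    have e : base (k - 1) = k - 1 := by
      unfold base
      push_cast
      apply max_eq_left
      have : (1 : ℝ) ≤ k := by exact_mod_cast hk
      linarith
    rw [e] at this
    linarith
  have hk' : (1 : ℝ) ≤ k := by exact_mod_cast hk
  have h3 : 2 / 3 ≤ gam V k := by
    unfold gam
    rw [le_div_iff₀ (by linarith)]
    have h4 := Q_ge base_le_V k
    nlinarith
  linarith

theorem gam_zero : gam V 0 = 1 / 2 := by
  have := gam_symm 0
  simp only [neg_zero] at this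
  linarith

theorem contr_high (k : ℤ) : (1 - gam V k) * w (k + 1) ≤ 3 / 4 * w k := by
  have hw := w_pos k
  have h0 := gam_pos good_V k
  have h1 := gam_lt_one good_V k
  rcases lt_trichotomy k 0 with hk | hk | hk
  · rw [w_high' hk]
    nlinarith
  · subst hk
    rw [w_high le_rfl, gam_zero]
    linarith
  · rw [w_high hk.le]
    have := gam_near_one (k := k) hk
    nlinarith

theorem contr_low (k : ℤ) : gam V k * w (k - 1) ≤ 3 / 4 * w k := by
  have h := contr_high (-k)
  rw [gam_symm, w_symm] at h
  have e : (-k + 1) = -(k - 1) := by ring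
  rw [e, w_symm] at h
  linarith

theorem abs_add_one_le (k : ℤ) : base k + 1 ≤ 2 * w k := by
  unfold base w
  have h := one_add_mul_le_pow (by norm_num : (-2 : ℝ) ≤ 1 / 2) k.natAbs
  have e : (1 + 1 / 2 : ℝ) = 3 / 2 := by norm_num
  rw [e] at h
  have h2 : (k : ℝ) ≤ (k.natAbs : ℝ) := by
    rw [Nat.cast_natAbs, Int.cast_abs]
    exact le_abs_self _
  have h3 : (0 : ℝ) ≤ (k.natAbs : ℝ) := by positivity
  have h4 : max (k : ℝ) 0 ≤ (k.natAbs : ℝ) := max_le h2 h3
  linarith

theorem w_ge_one (k : ℤ) : 1 ≤ w k := by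
  unfold w
  exact one_le_pow₀ (by norm_num)

/-- Uniqueness of the equalizing recursion. -/
theorem unique_rec {g V' : ℤ → ℝ} (hg0 : ∀ k, 0 < g k) (hg1 : ∀ k, g k < 1)
    (hV' : ∀ k, base k ≤ V' k)
    (hlow : ∀ k, V' k = g k * (1 + V' (k - 1)))
    (hhigh : ∀ k : ℤ, V' k = k * g k + (1 - g k) * V' (k + 1)) :
    V' = V ∧ g = gam V := by
  -- growth bound
  have hgrow : ∃ c : ℝ, 0 < c ∧ ∀ k, V' k ≤ c * w k := by
    have hup : ∀ n : ℕ, V' n ≤ V' 0 + n := by
      intro n
      induction n with
      | zero => simp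
      | succ n ih =>
        have h1 := hlow ((n : ℤ) + 1)
        have e : (n : ℤ) + 1 - 1 = n := by ring
        rw [e] at h1
        have h2 : 0 ≤ V' n := (base_nonneg _).trans (hV' _)
        have h3 := hg1 ((n : ℤ) + 1)
        have h4 : V' ((n : ℤ) + 1) ≤ 1 + V' n := by
          rw [h1]; nlinarith [hg0 ((n : ℤ) + 1)]
        push_cast
        linarith
    have hdown : ∀ n : ℕ, V' (-(n : ℤ)) ≤ V' 0 := by
      intro n
      induction n with
      | zero => simp
      | succ n ih =>
        have h1 := hhigh (-((n : ℤ) + 1))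
        have e : -((n : ℤ) + 1) + 1 = -(n : ℤ) := by ring
        rw [e] at h1
        have h2 : 0 ≤ V' (-(n : ℤ)) := (base_nonneg _).trans (hV' _)
        have h3 := hg1 (-((n : ℤ) + 1))
        have h4 := hg0 (-((n : ℤ) + 1))
        push_cast at h1 ⊢
        have h5 : V' (-((n : ℤ) + 1)) ≤ V' (-(n : ℤ)) := by
          rw [h1]
          have h6 : (0 : ℝ) ≤ (n : ℝ) + 1 := by positivity
          nlinarith [mul_nonneg h6 h4.le, mul_nonneg h4.le h2]
        have e2 : (-1 + -(n : ℤ)) = -((n : ℤ) + 1) := by ring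
        have e3 : (-(n : ℤ) + -1) = -((n : ℤ) + 1) := by ring
        try rw [e2]
        try rw [e3]
        linarith
    refine ⟨2 * (V' 0 + 1), by
      have := (base_nonneg 0).trans (hV' 0)
      linarith, ?_⟩
    intro k
    have h0 : 0 ≤ V' 0 := (base_nonneg 0).trans (hV' 0)
    have hb : V' k ≤ V' 0 + base k := by
      rcases le_total 0 k with hk | hk
      · have := hup k.toNat
        have e : ((k.toNat : ℕ) : ℤ) = k := Int.toNat_of_nonneg hk
        rw [e] at this
        have e2 : ((k.toNat : ℕ) : ℝ) = (k : ℝ) := by exact_mod_cast congrArg (Int.cast (R := ℝ)) e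
        rw [e2] at this
        exact this.trans (by linarith [le_base k])
      · have := hdown (-k).toNat
        have e : (((-k).toNat : ℕ) : ℤ) = -k := Int.toNat_of_nonneg (by omega)
        rw [e, neg_neg] at this
        exact this.trans (by linarith [base_nonneg k])
    have h2 := abs_add_one_le k
    have h3 := w_ge_one k
    have h4 : base k ≤ 2 * w k := by linarith
    nlinarith [w_pos k]
  obtain ⟨c, hc, hcw⟩ := hgrow
  -- V' is a fixed point of T
  have hden : ∀ k, 1 ≤ V' (k + 1) - k + (1 + V' (k - 1)) := den_pos hV'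
  have hgk : ∀ k, g k = gam V' k := by
    intro k
    have h1 := hlow k
    have h2 := hhigh k
    have h3 := hden k
    unfold gam
    rw [eq_div_iff (by linarith)]
    linarith
  have hTV' : ∀ k, T V' k = V' k := by
    intro k
    rw [T_eq_low, ← hgk]
    exact (hlow k).symm
  -- lower bound
  have hlb : ∀ n k, Vn n k ≤ V' k := by
    intro n
    induction n with
    | zero => exact hV'
    | succ n ih =>
      intro k
      rw [Vn_succ, ← hTV' k]
      exact T_mono (base_le_Vn n) ih k
  have hVV' : ∀ k, V k ≤ V' k := fun k => ciSup_le fun n => hlb n k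
  -- upper bound by contraction
  have hub : ∀ n : ℕ, ∀ k, V' k - V k ≤ (3 / 4) ^ n * (c * w k) := by
    intro n
    induction n with
    | zero =>
      intro k
      have := hcw k
      have := V_pos k
      simp only [pow_zero, one_mul]
      linarith
    | succ n ih =>
      intro k
      have hg0' := gam_pos good_V k
      have hg1' := gam_lt_one good_V k
      -- V' k ≤ max of the two options at gam V k
      have hVk1 := T_V k
      have hVk2 := T_V k
      rw [T_eq_low] at hVk1
      rw [T_eq_high base_le_V] at hVk2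
      have h1 := hlow k
      have h2 := hhigh k
      have hpl := P_gt hV' k
      have hql := Q_ge_one hV' k
      have ih1 := ih (k + 1)
      have ih2 := ih (k - 1)
      have hcp : 0 < (3 / 4 : ℝ) ^ n * c := by positivity
      have c1 := mul_le_mul_of_nonneg_left (contr_high k) hcp.le
      have c2 := mul_le_mul_of_nonneg_left (contr_low k) hcp.le
      rcases le_total (g k) (gam V k) with hgg | hgg
      · -- use low option : g' (1+Q) ≤ γ (1+Q)
        have h3 : V' k ≤ gam V k * (1 + V' (k - 1)) := by
          rw [h1]; exact mul_le_mul_of_nonneg_right hgg (by linarith)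
        have h4 : gam V k * (V' (k - 1) - V (k - 1)) ≤
            gam V k * ((3 / 4) ^ n * (c * w (k - 1))) :=
          mul_le_mul_of_nonneg_left ih2 hg0'.le
        calc V' k - V k ≤ gam V k * (V' (k - 1) - V (k - 1)) := by rw [← hVk1]; linarith
          _ ≤ _ := h4
          _ = (3 / 4) ^ n * c * (gam V k * w (k - 1)) := by ring
          _ ≤ _ := c2
          _ = _ := by ring
      · have h3 : V' k ≤ k * gam V k + (1 - gam V k) * V' (k + 1) := by
          rw [h2]
          nlinarith
        have h4 : (1 - gam V k) * (V' (k + 1) - V (k + 1)) ≤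
            (1 - gam V k) * ((3 / 4) ^ n * (c * w (k + 1))) :=
          mul_le_mul_of_nonneg_left ih1 (by linarith)
        calc V' k - V k ≤ (1 - gam V k) * (V' (k + 1) - V (k + 1)) := by
              rw [← hVk2]; linarith
          _ ≤ _ := h4
          _ = (3 / 4) ^ n * c * ((1 - gam V k) * w (k + 1)) := by ring
          _ ≤ _ := c1
          _ = _ := by ring
  have hV'V : V' = V := by
    funext k
    apply le_antisymm _ (hVV' k)
    have hlim : Tendsto (fun n : ℕ => (3 / 4 : ℝ) ^ n * (c * w k)) atTop (𝓝 (0 * (c * w k))) :=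
      (tendsto_pow_atTop_nhds_zero_of_lt_one (by norm_num) (by norm_num)).mul_const _
    rw [zero_mul] at hlim
    have := ge_of_tendsto' hlim fun n => hub n k
    linarith
  refine ⟨hV'V, ?_⟩
  funext k
  rw [hgk, hV'V]

end Pool.Agent.Work.MP_b21e06_an
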