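import Mathlib
import Pool.Agent.Work.MP_b21e06_an.Values
import Pool.Agent.Work.MP_b21e06_an.Game

set_option autoImplicit false

open MeasureTheory Filter Topology
open scoped ENNReal NNReal

namespace Pool.Agent.Work.MP_b21e06_an

/-- the answer of round n -/
noncomputable def ans (s : Searcher) (τ : Hider) (n : ℕ) : SignType :=
  SignType.sign (hpos s τ n - guess s τ n)

theorem run_succ_fst (s : Searcher) (τ : Hider) (n : ℕ) :
    (run s τ (n + 1)).1 = s (run s τ n).2 :: (run s τ n).1 := rfl

theorem run_succ_snd (s : Searcher) (τ : Hider) (n : ℕ) :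
    (run s τ (n + 1)).2 = ans s τ n :: (run s τ n).2 := rfl

theorem run_append (s : Searcher) (τ : Hider) (n m : ℕ) :
    ∃ L, (run s τ (n + m)).1 = L ++ (run s τ n).1 := by
  induction m with
  | zero => exact ⟨[], rfl⟩
  | succ m ih =>
    obtain ⟨L, hL⟩ := ih
    refine ⟨s (run s τ (n + m)).2 :: L, ?_⟩
    rw [← add_assoc, run_succ_fst, hL]
    rfl

theorem sign_later (s : Searcher) (τ : Hider) {n m : ℕ} (h : n ≤ m) :
    SignType.sign (hpos s τ m - guess s τ n) = ans s τ n := by
  rcases h.eq_or_lt with h | h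
  · subst h; rfl
  · obtain ⟨j, rfl⟩ := Nat.exists_eq_add_of_lt h
    obtain ⟨L, hL⟩ := run_append s τ (n + 1) j
    have e : n + j + 1 = n + 1 + j := by ring
    unfold hpos guess ans
    rw [e, hL, run_succ_fst]
    exact τ.consistent L _ _

/-- lower end -/
noncomputable def sa (lam : ℤ → ℝ) (A : List SignType) : ℝ := (alpernState lam A).1
/-- upper end -/
noncomputable def sb (lam : ℤ → ℝ) (A : List SignType) : ℝ := (alpernState lam A).2.1
/-- counter -/
noncomputable def sk (lam : ℤ → ℝ) (A : List SignType) : ℤ := (alpernState lam A).2.2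
/-- guess -/
noncomputable def sg (lam : ℤ → ℝ) (A : List SignType) : ℝ :=
  lam (sk lam A) * sa lam A + (1 - lam (sk lam A)) * sb lam A

section
variable {lam : ℤ → ℝ}

theorem state_pos (A : List SignType) :
    sa lam (1 :: A) = sg lam A ∧ sb lam (1 :: A) = sb lam A ∧ sk lam (1 :: A) = sk lam A + 1 := by
  simp [sa, sb, sk, sg, alpernState]

theorem state_neg (A : List SignType) :
    sa lam (-1 :: A) = sa lam A ∧ sb lam (-1 :: A) = sg lam A ∧
      sk lam (-1 :: A) = sk lam A - 1 := by
  simp [sa, sb, sk, sg, alpernState, show ¬ ((-1 : SignType) = 1) by decide]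

theorem state_zero (A : List SignType) :
    sa lam (0 :: A) = sg lam A ∧ sb lam (0 :: A) = sg lam A ∧ sk lam (0 :: A) = sk lam A := by
  simp [sa, sb, sk, sg, alpernState, show ¬ ((0 : SignType) = 1) by decide,
    show ¬ ((0 : SignType) = -1) by decide]

theorem sign_cases (c : SignType) : c = 1 ∨ c = -1 ∨ c = 0 := by
  revert c; decide

variable (hlam : ∀ k, 0 < lam k ∧ lam k < 1)
include hlam

theorem sg_mem {A : List SignType} (h : sa lam A ≤ sb lam A) :
    sa lam A ≤ sg lam A ∧ sg lam A ≤ sb lam A := by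
  have h1 := hlam (sk lam A)
  unfold sg
  constructor <;> nlinarith

theorem state_order (A : List SignType) : 0 ≤ sa lam A ∧ sa lam A ≤ sb lam A ∧ sb lam A ≤ 1 := by
  induction A with
  | nil => simp [sa, sb, alpernState]
  | cons c A ih =>
    obtain ⟨h1, h2, h3⟩ := ih
    obtain ⟨h4, h5⟩ := sg_mem hlam h2
    rcases sign_cases c with rfl | rfl | rfl
    · obtain ⟨e1, e2, _⟩ := state_pos (lam := lam) A
      rw [e1, e2]; exact ⟨h1.trans h4, h5, h3⟩
    · obtain ⟨e1, e2, _⟩ := state_neg (lam := lam) A
      rw [e1, e2]; exact ⟨h1, h4, h5.trans h3⟩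
    · obtain ⟨e1, e2, _⟩ := state_zero (lam := lam) A
      rw [e1, e2]; exact ⟨h1.trans h4, le_rfl, h5.trans h3⟩

theorem alpern_eq (A : List SignType) : ((alpern lam A : unitInterval) : ℝ) = sg lam A := by
  obtain ⟨h1, h2, h3⟩ := state_order hlam A
  obtain ⟨h4, h5⟩ := sg_mem hlam h2
  show ((Set.projIcc (0 : ℝ) 1 zero_le_one (sg lam A)) : ℝ) = sg lam A
  rw [Set.projIcc_of_mem zero_le_one ⟨h1.trans h4, h5.trans h3⟩]

theorem guess_eq (τ : Hider) (n : ℕ) :
    guess (alpern lam) τ n = sg lam (run (alpern lam) τ n).2 := alpern_eq hlam _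

/-- all later positions are in the current interval -/
theorem hpos_mem (τ : Hider) (n : ℕ) : ∀ m, n ≤ m →
    sa lam (run (alpern lam) τ n).2 ≤ hpos (alpern lam) τ m ∧
      hpos (alpern lam) τ m ≤ sb lam (run (alpern lam) τ n).2 := by
  induction n with
  | zero =>
    intro m _
    have : hpos (alpern lam) τ m ∈ Set.Icc (0 : ℝ) 1 := (τ.pos _).2
    simpa [run, sa, sb, alpernState] using this
  | succ n ih =>
    intro m hm
    have h1 := ih m (by omega)
    have h2 := sign_later (alpern lam) τ (n := n) (m := m) (by omega)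
    rw [guess_eq hlam] at h2
    rw [run_succ_snd]
    rcases sign_cases (ans (alpern lam) τ n) with h | h | h
    · rw [h] at h2 ⊢
      obtain ⟨e1, e2, _⟩ := state_pos (lam := lam) (run (alpern lam) τ n).2
      rw [e1, e2]
      rw [sign_eq_one_iff] at h2
      exact ⟨by linarith, h1.2⟩
    · rw [h] at h2 ⊢
      obtain ⟨e1, e2, _⟩ := state_neg (lam := lam) (run (alpern lam) τ n).2
      rw [e1, e2]
      rw [sign_eq_neg_one_iff] at h2
      exact ⟨h1.1, by linarith⟩
    · rw [h] at h2 ⊢
      obtain ⟨e1, e2, _⟩ := state_zero (lam := lam) (run (alpern lam) τ n).2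
      rw [e1, e2]
      rw [sign_eq_zero_iff] at h2
      exact ⟨by linarith, by linarith⟩

end

/-- the parameters of the optimal strategy -/
noncomputable def lamV (k : ℤ) : ℝ := 1 - gam V k

theorem lamV_mem (k : ℤ) : 0 < lamV k ∧ lamV k < 1 := by
  have h0 := gam_pos good_V k
  have h1 := gam_lt_one good_V k
  unfold lamV
  constructor <;> linarith

theorem sg_lamV (A : List SignType) :
    sg lamV A - sa lamV A = gam V (sk lamV A) * (sb lamV A - sa lamV A) := by
  unfold sg lamV; ring

theorem sg_lamV' (A : List SignType) :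
    sb lamV A - sg lamV A = (1 - gam V (sk lamV A)) * (sb lamV A - sa lamV A) := by
  unfold sg lamV; ring

theorem V_low (k : ℤ) : V k = gam V k * (1 + V (k - 1)) := by
  rw [← T_eq_low, T_V]

theorem V_high (k : ℤ) : V k = k * gam V k + (1 - gam V k) * V (k + 1) := by
  rw [← T_eq_high base_le_V, T_V]

/-- geometric decay of the weighted length -/
theorem decay (A : List SignType) :
    (sb lamV A - sa lamV A) * w (sk lamV A) ≤ (3 / 4) ^ A.length := by
  induction A with
  | nil => simp [sa, sb, sk, alpernState, w]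
  | cons c A ih =>
    obtain ⟨h1, h2, h3⟩ := state_order lamV_mem A
    have hlen : 0 ≤ sb lamV A - sa lamV A := by linarith
    rw [List.length_cons, pow_succ]
    rcases sign_cases c with rfl | rfl | rfl
    · obtain ⟨e1, e2, e3⟩ := state_pos (lam := lamV) A
      rw [e1, e2, e3, sg_lamV']
      have := mul_le_mul_of_nonneg_left (contr_high (sk lamV A)) hlen
      nlinarith
    · obtain ⟨e1, e2, e3⟩ := state_neg (lam := lamV) A
      rw [e1, e2, e3, sg_lamV]
      have := mul_le_mul_of_nonneg_left (contr_low (sk lamV A)) hlen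
      nlinarith
    · obtain ⟨e1, e2, e3⟩ := state_zero (lam := lamV) A
      rw [e1, e2, sub_self, zero_mul]
      positivity

theorem length_run (s : Searcher) (τ : Hider) (n : ℕ) : (run s τ n).2.length = n := by
  induction n with
  | zero => rfl
  | succ n ih => rw [run_succ_snd, List.length_cons, ih]

/-- the residual potential -/
noncomputable def resid (A : List SignType) (x : ℝ) : ℝ :=
  (sb lamV A - sa lamV A) * V (sk lamV A) - sk lamV A * (x - sa lamV A)

theorem resid_nonneg {A : List SignType} {x : ℝ} (h1 : sa lamV A ≤ x) (h2 : x ≤ sb lamV A) :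
    0 ≤ resid A x := by
  unfold resid
  have h3 := base_le_V (sk lamV A)
  have h4 := le_base (sk lamV A)
  have h5 := base_nonneg (sk lamV A)
  nlinarith [mul_le_mul_of_nonneg_left h3 (by linarith : 0 ≤ sb lamV A - sa lamV A),
    mul_le_mul_of_nonneg_right h4 (by linarith : 0 ≤ x - sa lamV A)]

theorem resid_le {A : List SignType} {x : ℝ} (h1 : sa lamV A ≤ x) (h2 : x ≤ sb lamV A) :
    resid A x ≤ 4 * (3 / 4) ^ A.length := by
  have hd := decay A
  have h3 : V (sk lamV A) ≤ 2 * w (sk lamV A) := (V_le _).trans (abs_add_one_le _)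
  have hl : 0 ≤ sb lamV A - sa lamV A := by linarith
  have h4 : -(sk lamV A : ℝ) ≤ 2 * w (sk lamV A) := by
    have := abs_add_one_le (-(sk lamV A))
    rw [w_symm] at this
    have h5 := le_base (-(sk lamV A))
    push_cast at h5
    linarith
  have hw := w_pos (sk lamV A)
  unfold resid
  have e1 : (sb lamV A - sa lamV A) * V (sk lamV A) ≤
      (sb lamV A - sa lamV A) * (2 * w (sk lamV A)) := mul_le_mul_of_nonneg_left h3 hl
  have e2 : -(sk lamV A : ℝ) * (x - sa lamV A) ≤ 2 * w (sk lamV A) * (x - sa lamV A) :=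
    mul_le_mul_of_nonneg_right h4 (by linarith)
  have e3 : 2 * w (sk lamV A) * (x - sa lamV A) ≤ 2 * w (sk lamV A) * (sb lamV A - sa lamV A) :=
    mul_le_mul_of_nonneg_left (by linarith) (by positivity)
  nlinarith

/-- One step of the potential identity. -/
theorem resid_step (A : List SignType) (c : SignType) (x : ℝ)
    (h1 : sa lamV A ≤ x) (h2 : x ≤ sb lamV A)
    (h3 : sa lamV (c :: A) ≤ x) (h4 : x ≤ sb lamV (c :: A)) :
    |sg lamV A - x| + resid (c :: A) x ≤ resid A x ∧
      (c ≠ 0 → |sg lamV A - x| + resid (c :: A) x = resid A x) := by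
  have hg := sg_lamV A
  have hg' := sg_lamV' A
  have vl := V_low (sk lamV A)
  have vh := V_high (sk lamV A)
  rcases sign_cases c with rfl | rfl | rfl
  · obtain ⟨e1, e2, e3⟩ := state_pos (lam := lamV) A
    rw [e1] at h3
    have : |sg lamV A - x| + resid (1 :: A) x = resid A x := by
      unfold resid
      rw [e1, e2, e3, abs_of_nonpos (by linarith), hg']
      push_cast
      have e4 : (sb lamV A - sa lamV A) * V (sk lamV A) =
          (sb lamV A - sa lamV A) *
            (sk lamV A * gam V (sk lamV A) + (1 - gam V (sk lamV A)) * V (sk lamV A + 1)) := by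
        rw [← vh]
      rw [e4]
      have e5 : sg lamV A = sa lamV A + gam V (sk lamV A) * (sb lamV A - sa lamV A) := by linarith
      rw [e5]
      ring
    exact ⟨this.le, fun _ => this⟩
  · obtain ⟨e1, e2, e3⟩ := state_neg (lam := lamV) A
    rw [e2] at h4
    have : |sg lamV A - x| + resid (-1 :: A) x = resid A x := by
      unfold resid
      rw [e1, e2, e3, abs_of_nonneg (by linarith), hg]
      push_cast
      have e4 : (sb lamV A - sa lamV A) * V (sk lamV A) =
          (sb lamV A - sa lamV A) * (gam V (sk lamV A) * (1 + V (sk lamV A - 1))) := by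
        rw [← vl]
      rw [e4]
      have e5 : sg lamV A = sa lamV A + gam V (sk lamV A) * (sb lamV A - sa lamV A) := by linarith
      rw [e5]
      ring
    exact ⟨this.le, fun _ => this⟩
  · obtain ⟨e1, e2, e3⟩ := state_zero (lam := lamV) A
    rw [e1] at h3
    rw [e2] at h4
    refine ⟨?_, fun h => absurd rfl h⟩
    have hx : x = sg lamV A := le_antisymm h4 h3
    have h5 : resid (0 :: A) x = 0 := by
      unfold resid
      rw [e1, e2, e3, hx]; ring
    have h6 : |sg lamV A - x| = 0 := by
      rw [hx]; simp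
    rw [h5, h6]
    simpa using resid_nonneg h1 h2

theorem resid_nil (x : ℝ) : resid [] x = V 0 := by
  simp [resid, sa, sb, sk, alpernState]

/-- the current answer list of Alpern's strategy -/
noncomputable def al (τ : Hider) (n : ℕ) : List SignType := (run (alpern lamV) τ n).2

theorem al_succ (τ : Hider) (n : ℕ) : al τ (n + 1) = ans (alpern lamV) τ n :: al τ n := rfl

theorem partial_sum (τ : Hider) (x : ℝ)
    (hx : ∀ n, sa lamV (al τ n) ≤ x ∧ x ≤ sb lamV (al τ n)) (n : ℕ) :
    ∑ i ∈ Finset.range n, |guess (alpern lamV) τ i - x| + resid (al τ n) x ≤ V 0 ∧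
    ((∀ i, ans (alpern lamV) τ i ≠ 0) →
      ∑ i ∈ Finset.range n, |guess (alpern lamV) τ i - x| + resid (al τ n) x = V 0) := by
  induction n with
  | zero =>
    have : al τ 0 = [] := rfl
    rw [this, resid_nil]
    simp
  | succ n ih =>
    have h1 := resid_step (al τ n) (ans (alpern lamV) τ n) x (hx n).1 (hx n).2
      (by rw [← al_succ]; exact (hx (n + 1)).1) (by rw [← al_succ]; exact (hx (n + 1)).2)
    rw [Finset.sum_range_succ, al_succ, guess_eq lamV_mem]
    have e : sg lamV (run (alpern lamV) τ n).2 = sg lamV (al τ n) := rfl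
    rw [e]
    constructor
    · linarith [h1.1, ih.1]
    · intro h
      linarith [h1.2 (h n), ih.2 h]

theorem exists_limit (τ : Hider) : ∃ x, Tendsto (hpos (alpern lamV) τ) atTop (𝓝 x) ∧
    ∀ n, sa lamV (al τ n) ≤ x ∧ x ≤ sb lamV (al τ n) := by
  have hcau : CauchySeq (hpos (alpern lamV) τ) := by
    rw [Metric.cauchySeq_iff']
    intro ε hε
    obtain ⟨n, hn⟩ := exists_pow_lt_of_lt_one hε (by norm_num : (3 / 4 : ℝ) < 1)
    refine ⟨n, fun m hm => ?_⟩
    have h1 := hpos_mem lamV_mem τ n m hm
    have h2 := hpos_mem lamV_mem τ n n le_rfl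
    have h3 := decay (al τ n)
    have h4 : (al τ n).length = n := length_run _ _ _
    have h5 := w_ge_one (sk lamV (al τ n))
    have h6 : 0 ≤ sb lamV (al τ n) - sa lamV (al τ n) := by
      have := state_order lamV_mem (al τ n)
      linarith
    have h7 : sb lamV (al τ n) - sa lamV (al τ n) ≤ (3 / 4) ^ n := by
      rw [h4] at h3; nlinarith
    have e1 : sa lamV (run (alpern lamV) τ n).2 = sa lamV (al τ n) := rfl
    have e2 : sb lamV (run (alpern lamV) τ n).2 = sb lamV (al τ n) := rfl
    rw [e1, e2] at h1 h2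
    rw [Real.dist_eq, abs_lt]
    constructor <;> linarith
  obtain ⟨x, hx⟩ := cauchySeq_tendsto_of_complete hcau
  refine ⟨x, hx, fun n => ⟨?_, ?_⟩⟩
  · apply ge_of_tendsto hx
    filter_upwards [eventually_ge_atTop n] with m hm
    exact (hpos_mem lamV_mem τ n m hm).1
  · apply le_of_tendsto hx
    filter_upwards [eventually_ge_atTop n] with m hm
    exact (hpos_mem lamV_mem τ n m hm).2

/-- Alpern's strategy guarantees `V 0` against every mobile hider. -/
theorem payoff_le (τ : Hider) : payoff (alpern lamV) τ ≤ ENNReal.ofReal (V 0) := by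
  obtain ⟨x, hx, hmem⟩ := exists_limit τ
  unfold payoff
  refine (iInf₂_le x hx).trans ?_
  apply ENNReal.tsum_le_of_sum_range_le
  intro n
  rw [← ENNReal.ofReal_sum_of_nonneg (fun i _ => abs_nonneg _)]
  apply ENNReal.ofReal_le_ofReal
  have h1 := (partial_sum τ x hmem n).1
  have h2 := resid_nonneg (hmem n).1 (hmem n).2
  linarith

theorem payoff_of_tendsto (s : Searcher) (τ : Hider) {x : ℝ}
    (hx : Tendsto (hpos s τ) atTop (𝓝 x)) :
    payoff s τ = ∑' n, ENNReal.ofReal |guess s τ n - x| := by
  unfold payoff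
  apply le_antisymm
  · exact iInf₂_le x hx
  · apply le_iInf₂
    intro y hy
    rw [tendsto_nhds_unique hx hy]

/-- Alpern's strategy is equalizing. -/
theorem payoff_still {h : unitInterval} (hh : ∀ A, alpern lamV A ≠ h) :
    payoff (alpern lamV) (Hider.still h) = ENNReal.ofReal (V 0) := by
  apply le_antisymm (payoff_le _)
  have hx : Tendsto (hpos (alpern lamV) (Hider.still h)) atTop (𝓝 (h : ℝ)) :=
    tendsto_const_nhds
  rw [payoff_of_tendsto _ _ hx]
  have hmem : ∀ n, sa lamV (al (Hider.still h) n) ≤ h ∧ (h : ℝ) ≤ sb lamV (al (Hider.still h) n) :=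
    fun n => hpos_mem lamV_mem (Hider.still h) n n le_rfl
  have hans : ∀ i, ans (alpern lamV) (Hider.still h) i ≠ 0 := by
    intro i hi
    unfold ans at hi
    rw [sign_eq_zero_iff] at hi
    apply hh (run (alpern lamV) (Hider.still h) i).2
    apply Subtype.ext
    have e : hpos (alpern lamV) (Hider.still h) i = h := rfl
    rw [e] at hi
    have e2 : guess (alpern lamV) (Hider.still h) i =
      (alpern lamV (run (alpern lamV) (Hider.still h) i).2 : ℝ) := rfl
    rw [← e2]; linarith
  have key : ∀ n : ℕ, ENNReal.ofReal (V 0 - 4 * (3 / 4) ^ n) ≤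
      ∑' n, ENNReal.ofReal |guess (alpern lamV) (Hider.still h) n - h| := by
    intro n
    refine le_trans ?_ (ENNReal.sum_le_tsum (Finset.range n))
    rw [← ENNReal.ofReal_sum_of_nonneg (fun i _ => abs_nonneg _)]
    apply ENNReal.ofReal_le_ofReal
    have h1 := (partial_sum (Hider.still h) h hmem n).2 hans
    have h2 := resid_le (hmem n).1 (hmem n).2
    have h3 : (al (Hider.still h) n).length = n := length_run _ _ _
    rw [h3] at h2
    linarith
  have hlim : Tendsto (fun n : ℕ => ENNReal.ofReal (V 0 - 4 * (3 / 4) ^ n)) atTop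
      (𝓝 (ENNReal.ofReal (V 0 - 4 * 0))) := by
    apply ENNReal.tendsto_ofReal
    apply Tendsto.const_sub
    apply Tendsto.const_mul
    exact tendsto_pow_atTop_nhds_zero_of_lt_one (by norm_num) (by norm_num)
  rw [mul_zero, sub_zero] at hlim
  exact le_of_tendsto' hlim key

theorem isAlpern_lamV : IsAlpern lamV (V 0).toNNReal := by
  refine ⟨lamV_mem, fun h hh => ?_⟩
  rw [payoff_still hh]
  rfl

end Pool.Agent.Work.MP_b21e06_an
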