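import Mathlib
import Pool.Agent.Work.MP_b21e06_an.Values
import Pool.Agent.Work.MP_b21e06_an.Game
import Pool.Agent.Work.MP_b21e06_an.Upper

set_option autoImplicit false

open MeasureTheory Filter Topology
open scoped ENNReal NNReal

namespace Pool.Agent.Work.MP_b21e06_an

/-- lower end of the consistent interval -/
noncomputable def la (s : Searcher) : List SignType → ℝ
  | [] => 0
  | c :: A => if c = 1 then max (la s A) (s A) else if c = -1 then la s A else (s A : ℝ)

/-- upper end of the consistent interval -/
noncomputable def lb (s : Searcher) : List SignType → ℝ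
  | [] => 1
  | c :: A => if c = 1 then lb s A else if c = -1 then min (lb s A) (s A) else (s A : ℝ)

/-- constant part of the accumulated cost -/
noncomputable def lC (s : Searcher) : List SignType → ℝ
  | [] => 0
  | c :: A => if c = 1 then lC s A - s A else if c = -1 then lC s A + s A else lC s A

/-- the counter -/
def kk : List SignType → ℤ
  | [] => 0
  | c :: A => if c = 1 then kk A + 1 else if c = -1 then kk A - 1 else kk A

theorem ne1 : ¬ ((-1 : SignType) = 1) := by decide
theorem ne2 : ¬ ((0 : SignType) = 1) := by decide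
theorem ne3 : ¬ ((0 : SignType) = -1) := by decide

section
variable (s : Searcher) (A : List SignType)

theorem pos_eqs : la s (1 :: A) = max (la s A) (s A) ∧ lb s (1 :: A) = lb s A ∧
    lC s (1 :: A) = lC s A - s A ∧ kk (1 :: A) = kk A + 1 := by
  simp [la, lb, lC, kk]

theorem neg_eqs : la s (-1 :: A) = la s A ∧ lb s (-1 :: A) = min (lb s A) (s A) ∧
    lC s (-1 :: A) = lC s A + s A ∧ kk (-1 :: A) = kk A - 1 := by
  simp [la, lb, lC, kk]

theorem zero_eqs : la s (0 :: A) = s A ∧ lb s (0 :: A) = s A ∧
    lC s (0 :: A) = lC s A ∧ kk (0 :: A) = kk A := by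
  simp [la, lb, lC, kk, ne3]

/-- the potential -/
noncomputable def Phi (U : ℤ → ℝ) : ℝ :=
  lC s A + kk A * la s A + (lb s A - la s A) * U (kk A)

/-- the position with relative coordinate `ρ` -/
noncomputable def bp (ρ : ℝ) : ℝ := la s A + (lb s A - la s A) * ρ

end

/-- mixing weight -/
noncomputable def th (U : ℤ → ℝ) (k : ℤ) : ℝ :=
  (U (k + 1) - k) / (U (k + 1) - k + (1 + U (k - 1)))

theorem th_pos {U : ℤ → ℝ} (hU : Good U) (k : ℤ) : 0 < th U k := by
  have hU' : ∀ k, base k ≤ U k := fun k => (hU k).le
  have h := den_pos hU' k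
  have h2 := P_gt hU' k
  exact div_pos (by linarith) (by linarith)

theorem th_lt_one {U : ℤ → ℝ} (hU : Good U) (k : ℤ) : th U k < 1 := by
  have hU' : ∀ k, base k ≤ U k := fun k => (hU k).le
  have h := den_pos hU' k
  have h2 := Q_ge_one hU' k
  unfold th
  rw [div_lt_one (by linarith)]
  linarith

theorem th_bal {U : ℤ → ℝ} (hU : Good U) (k : ℤ) :
    th U k * (1 + U (k - 1)) = (1 - th U k) * (U (k + 1) - k) := by
  have hU' : ∀ k, base k ≤ U k := fun k => (hU k).le
  have h := den_pos hU' k
  unfold th
  have : U (k + 1) - k + (1 + U (k - 1)) ≠ 0 := by linarith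
  field_simp
  ring

/-- The stage inequality. -/
theorem stage {U : ℤ → ℝ} (hU : Good U) (s : Searcher) (A : List SignType)
    (hab : la s A < lb s A) {δ : ℝ} (hδ : 0 < δ) (h1 : δ < gam U (kk A))
    (h2 : δ < 1 - gam U (kk A))
    (hm : (s A : ℝ) ≠ bp s A (gam U (kk A) - δ)) (hp : (s A : ℝ) ≠ bp s A (gam U (kk A) + δ)) :
    Phi s A (T U) ≤
      th U (kk A) * Phi s (SignType.sign (bp s A (gam U (kk A) - δ) - s A) :: A) U +
      (1 - th U (kk A)) * Phi s (SignType.sign (bp s A (gam U (kk A) + δ) - s A) :: A) U := by
  have hU' : ∀ k, base k ≤ U k := fun k => (hU k).le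
  have t0 := th_pos hU (kk A)
  have t1 := th_lt_one hU (kk A)
  have hbal := th_bal hU (kk A)
  have hTl := T_eq_low (U := U) (kk A)
  have hTh := T_eq_high hU' (kk A)
  have hP := P_gt hU' (kk A)
  have hQ := Q_ge_one hU' (kk A)
  obtain ⟨p1, p2, p3, p4⟩ := pos_eqs s A
  obtain ⟨n1, n2, n3, n4⟩ := neg_eqs s A
  unfold bp at hm hp ⊢
  unfold Phi
  set a := la s A
  set b := lb s A
  set C := lC s A
  set k := kk A
  set x : ℝ := (s A : ℝ)
  set γ := gam U k
  have hl : 0 < b - a := by linarith
  have hlt : a + (b - a) * (γ - δ) < a + (b - a) * (γ + δ) := by nlinarith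
  -- both comparisons
  rcases lt_or_gt_of_ne hm with c1 | c1
  · -- x < h_- : both high
    have s1 : SignType.sign (a + (b - a) * (γ - δ) - x) = 1 := by
      rw [sign_eq_one_iff]; linarith
    have s2 : SignType.sign (a + (b - a) * (γ + δ) - x) = 1 := by
      rw [sign_eq_one_iff]; linarith
    rw [s1, s2, p1, p2, p3, p4]
    push_cast
    have hmax : max a x ≤ a + (b - a) * γ := by
      apply max_le
      · nlinarith [gam_pos hU k]
      · nlinarith
    have hxm : x ≤ max a x := le_max_right _ _
    set m := max a x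
    have key : C + k * a + (b - a) * T U k ≤ C - x + (k + 1) * m + (b - m) * U (k + 1) := by
      rw [hTh]
      have e : (a + (b - a) * γ - m) * (U (k + 1) - k) ≥ 0 :=
        mul_nonneg (by linarith) (by linarith)
      have e2 : C - x + (k + 1) * m + (b - m) * U (k + 1) -
          (C + k * a + (b - a) * (k * γ + (1 - γ) * U (k + 1))) =
          (m - x) + (a + (b - a) * γ - m) * (U (k + 1) - k) := by ring
      linarith
    calc C + k * a + (b - a) * T U k ≤ C - x + (k + 1) * m + (b - m) * U (k + 1) := key
      _ = _ := by ring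
  · rcases lt_or_gt_of_ne hp with c2 | c2
    · -- in between
      have s1 : SignType.sign (a + (b - a) * (γ - δ) - x) = -1 := by
        rw [sign_eq_neg_one_iff]; linarith
      have s2 : SignType.sign (a + (b - a) * (γ + δ) - x) = 1 := by
        rw [sign_eq_one_iff]; linarith
      have hax : a < x := by nlinarith
      have hxb : x < b := by nlinarith
      rw [s1, s2, p1, p2, p3, p4, n1, n2, n3, n4, max_eq_right hax.le, min_eq_right hxb.le]
      push_cast
      have e1 : th U k * (C + x + (k - 1) * a + (x - a) * U (k - 1)) +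
          (1 - th U k) * (C - x + (k + 1) * x + (b - x) * U (k + 1)) =
          C + k * a + (x - a) * (th U k * (1 + U (k - 1))) +
          (1 - th U k) * (k * (x - a) + (b - x) * U (k + 1)) := by ring
      rw [e1, hbal]
      have e2 : C + k * a + (x - a) * ((1 - th U k) * (U (k + 1) - k)) +
          (1 - th U k) * (k * (x - a) + (b - x) * U (k + 1)) =
          C + k * a + (b - a) * ((1 - th U k) * U (k + 1)) := by ring
      rw [e2]
      -- T U k = (1-θ) U(k+1)
      have e3 : T U k = (1 - th U k) * U (k + 1) := by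
        have h := den_pos hU' k
        unfold T th
        have : U (k + 1) - k + (1 + U (k - 1)) ≠ 0 := by linarith
        field_simp
        ring
      rw [e3]
    · -- x > h_+ : both low
      have s1 : SignType.sign (a + (b - a) * (γ - δ) - x) = -1 := by
        rw [sign_eq_neg_one_iff]; linarith
      have s2 : SignType.sign (a + (b - a) * (γ + δ) - x) = -1 := by
        rw [sign_eq_neg_one_iff]; linarith
      rw [s1, s2, n1, n2, n3, n4]
      push_cast
      have hmin : a + (b - a) * γ ≤ min b x := by
        apply le_min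
        · nlinarith [gam_lt_one hU k]
        · nlinarith
      have hxm : min b x ≤ x := min_le_right _ _
      set m := min b x
      have key : C + k * a + (b - a) * T U k ≤ C + x + (k - 1) * a + (m - a) * U (k - 1) := by
        rw [hTl]
        have e : (m - (a + (b - a) * γ)) * (1 + U (k - 1)) ≥ 0 :=
          mul_nonneg (by linarith) (by linarith)
        have e2 : C + x + (k - 1) * a + (m - a) * U (k - 1) -
            (C + k * a + (b - a) * (γ * (1 + U (k - 1)))) =
            (x - m) + (m - (a + (b - a) * γ)) * (1 + U (k - 1)) := by ring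
        linarith
      calc C + k * a + (b - a) * T U k ≤ C + x + (k - 1) * a + (m - a) * U (k - 1) := key
        _ = _ := by ring

/-- consistency with the open interval, or with a single point -/
def Cons (a b x : ℝ) : Prop := (a < x ∧ x < b) ∨ (x = a ∧ x = b)

theorem cons_bp {a b ρ : ℝ} (hab : a ≤ b) (h0 : 0 < ρ) (h1 : ρ < 1) :
    Cons a b (a + (b - a) * ρ) := by
  rcases hab.eq_or_lt with h | h
  · right; subst h; simp
  · left; constructor <;> nlinarith

/-- updated lower end -/
noncomputable def ua (c : SignType) (a g : ℝ) : ℝ :=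
  if c = 1 then max a g else if c = -1 then a else g

/-- updated upper end -/
noncomputable def ub (c : SignType) (b g : ℝ) : ℝ :=
  if c = 1 then b else if c = -1 then min b g else g

theorem cons_next {a b h g x : ℝ} (hh : Cons a b h)
    (hx : Cons (ua (SignType.sign (h - g)) a g) (ub (SignType.sign (h - g)) b g) x) :
    Cons a b x ∧ SignType.sign (x - g) = SignType.sign (h - g) := by
  rcases lt_trichotomy g h with c | c | c
  · have e : SignType.sign (h - g) = 1 := by rw [sign_eq_one_iff]; linarith
    rw [e] at hx ⊢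
    simp only [ua, ub, if_true] at hx
    rw [sign_eq_one_iff]
    have m1 := le_max_left a g
    have m2 := le_max_right a g
    rcases hh with ⟨h1, h2⟩ | ⟨h1, h2⟩
    · rcases hx with ⟨x1, x2⟩ | ⟨x1, x2⟩
      · exact ⟨Or.inl ⟨by linarith, x2⟩, by linarith⟩
      · have : max a g < b := max_lt (by linarith) (by linarith)
        linarith
    · have hm : max a g = a := max_eq_left (by linarith)
      rw [hm] at hx
      rcases hx with ⟨x1, x2⟩ | ⟨x1, x2⟩
      · linarith
      · exact ⟨Or.inr ⟨x1, x2⟩, by linarith⟩
  · have e : SignType.sign (h - g) = 0 := by rw [sign_eq_zero_iff]; linarith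
    rw [e] at hx ⊢
    simp only [ua, ub, ne2, ne3, if_false] at hx
    rw [sign_eq_zero_iff]
    rcases hx with ⟨x1, x2⟩ | ⟨x1, x2⟩
    · linarith
    · rw [x1, c]
      exact ⟨hh, by linarith⟩
  · have e : SignType.sign (h - g) = -1 := by rw [sign_eq_neg_one_iff]; linarith
    rw [e] at hx ⊢
    simp only [ua, ub, ne1, if_true, if_false] at hx
    rw [sign_eq_neg_one_iff]
    have m1 := min_le_left b g
    have m2 := min_le_right b g
    rcases hh with ⟨h1, h2⟩ | ⟨h1, h2⟩
    · rcases hx with ⟨x1, x2⟩ | ⟨x1, x2⟩
      · exact ⟨Or.inl ⟨x1, by linarith⟩, by linarith⟩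
      · have : a < min b g := lt_min (by linarith) (by linarith)
        linarith
    · have hm : min b g = b := min_eq_left (by linarith)
      rw [hm] at hx
      rcases hx with ⟨x1, x2⟩ | ⟨x1, x2⟩
      · linarith
      · exact ⟨Or.inr ⟨x1, x2⟩, by linarith⟩

/-- if the position `h` is consistent, the updated interval is an interval -/
theorem ua_le_ub {a b h g : ℝ} (hh : Cons a b h) (hab : a ≤ b) :
    ua (SignType.sign (h - g)) a g ≤ ub (SignType.sign (h - g)) b g ∧
    (SignType.sign (h - g) ≠ 0 → a < b →
      ua (SignType.sign (h - g)) a g < ub (SignType.sign (h - g)) b g) := by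
  rcases lt_trichotomy g h with c | c | c
  · have e : SignType.sign (h - g) = 1 := by rw [sign_eq_one_iff]; linarith
    rw [e]
    simp only [ua, ub, if_true]
    constructor
    · apply max_le hab
      rcases hh with ⟨h1, h2⟩ | ⟨h1, h2⟩ <;> linarith
    · intro _ hlt
      apply max_lt hlt
      rcases hh with ⟨h1, h2⟩ | ⟨h1, h2⟩ <;> linarith
  · have e : SignType.sign (h - g) = 0 := by rw [sign_eq_zero_iff]; linarith
    rw [e]
    simp only [ua, ub, ne2, ne3, if_false]
    exact ⟨le_rfl, fun h => absurd rfl h⟩
  · have e : SignType.sign (h - g) = -1 := by rw [sign_eq_neg_one_iff]; linarith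
    rw [e]
    simp only [ua, ub, ne1, if_true, if_false]
    constructor
    · apply le_min hab
      rcases hh with ⟨h1, h2⟩ | ⟨h1, h2⟩ <;> linarith
    · intro _ hlt
      apply lt_min hlt
      rcases hh with ⟨h1, h2⟩ | ⟨h1, h2⟩ <;> linarith

theorem ua_mem {c : SignType} {a g : ℝ} (ha : 0 ≤ a) (hg : 0 ≤ g) : 0 ≤ ua c a g := by
  unfold ua
  split_ifs
  · exact le_max_of_le_left ha
  · exact ha
  · exact hg

theorem ub_mem {c : SignType} {b g : ℝ} (hb : b ≤ 1) (hg : g ≤ 1) : ub c b g ≤ 1 := by
  unfold ub
  split_ifs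
  · exact hb
  · exact (min_le_left _ _).trans hb
  · exact hg

theorem la_cons (s : Searcher) (c : SignType) (A : List SignType) :
    la s (c :: A) = ua c (la s A) (s A) := rfl

theorem lb_cons (s : Searcher) (c : SignType) (A : List SignType) :
    lb s (c :: A) = ub c (lb s A) (s A) := rfl

end Pool.Agent.Work.MP_b21e06_an
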