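import Mathlib
import Pool.Agent.Work.MP_b21e06_an.Values
import Pool.Agent.Work.MP_b21e06_an.Game
import Pool.Agent.Work.MP_b21e06_an.Upper
import Pool.Agent.Work.MP_b21e06_an.Stage

set_option autoImplicit false

open MeasureTheory Filter Topology
open scoped ENNReal NNReal

namespace Pool.Agent.Work.MP_b21e06_an

/-- history of answers when the hider uses the relative positions `r` -/
noncomputable def hist (r : List SignType → ℝ) (s : Searcher) : ℕ → List SignType
  | 0 => []
  | n + 1 => SignType.sign (bp s (hist r s n) (r (hist r s n)) - s (hist r s n)) :: hist r s n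

theorem hist_succ (r : List SignType → ℝ) (s : Searcher) (n : ℕ) :
    hist r s (n + 1) =
      SignType.sign (bp s (hist r s n) (r (hist r s n)) - s (hist r s n)) :: hist r s n := rfl

theorem length_hist (r : List SignType → ℝ) (s : Searcher) (n : ℕ) :
    (hist r s n).length = n := by
  induction n with
  | zero => rfl
  | succ n ih => rw [hist_succ, List.length_cons, ih]

theorem hist_congr {r r' : List SignType → ℝ} (s : Searcher) (n : ℕ)
    (h : ∀ A : List SignType, A.length < n → r A = r' A) : hist r s n = hist r' s n := by
  induction n with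
  | zero => rfl
  | succ n ih =>
    have h1 := ih fun A hA => h A (by omega)
    rw [hist_succ, hist_succ, h1, h _ (by rw [length_hist]; omega)]

theorem la_mem (s : Searcher) (A : List SignType) : 0 ≤ la s A ∧ la s A ≤ 1 := by
  induction A with
  | nil => simp [la]
  | cons c A ih =>
    have h1 := (s A).2.1
    have h2 := (s A).2.2
    unfold la
    split_ifs
    · exact ⟨le_max_of_le_left ih.1, max_le ih.2 h2⟩
    · exact ih
    · exact ⟨h1, h2⟩

theorem lb_mem (s : Searcher) (A : List SignType) : 0 ≤ lb s A ∧ lb s A ≤ 1 := by
  induction A with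
  | nil => simp [lb]
  | cons c A ih =>
    have h1 := (s A).2.1
    have h2 := (s A).2.2
    unfold lb
    split_ifs
    · exact ih
    · exact ⟨le_min ih.1 h1, min_le_of_left_le ih.2⟩
    · exact ⟨h1, h2⟩

theorem lC_mem (s : Searcher) (A : List SignType) : |lC s A| ≤ A.length := by
  induction A with
  | nil => simp [lC]
  | cons c A ih =>
    have h1 := (s A).2.1
    have h2 := (s A).2.2
    rw [abs_le] at ih ⊢
    unfold lC
    rw [List.length_cons]
    push_cast
    split_ifs
    · constructor <;> linarith [ih.1, ih.2]
    · constructor <;> linarith [ih.1, ih.2]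
    · constructor <;> linarith [ih.1, ih.2]

theorem kk_mem (A : List SignType) : |(kk A : ℝ)| ≤ A.length := by
  induction A with
  | nil => simp [kk]
  | cons c A ih =>
    rw [abs_le] at ih ⊢
    unfold kk
    rw [List.length_cons]
    push_cast
    split_ifs
    · constructor <;> linarith [ih.1, ih.2]
    · constructor <;> linarith [ih.1, ih.2]
    · constructor <;> linarith [ih.1, ih.2]

/-- admissible continuation values -/
structure Adm (U : ℤ → ℝ) : Prop where
  good : Good U
  le : ∀ k, U k ≤ base k + 1

theorem Adm.T {U : ℤ → ℝ} (h : Adm U) : Adm (T U) where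
  good := good_T h.good
  le := T_le_base (fun k => (h.good k).le) h.le

theorem Phi_bound {U : ℤ → ℝ} (hU : Adm U) (s : Searcher) (A : List SignType) :
    |Phi s A U| ≤ 3 * A.length + 1 := by
  have h1 := lC_mem s A
  have h2 := kk_mem A
  have h3 := la_mem s A
  have h4 := lb_mem s A
  have h5 : |U (kk A)| ≤ A.length + 1 := by
    have h6 := hU.le (kk A)
    have h7 := (base_nonneg (kk A)).trans (hU.good (kk A)).le
    rw [abs_of_nonneg h7]
    have h8 : base (kk A) ≤ A.length := by
      unfold base
      exact max_le ((le_abs_self _).trans h2) (by positivity)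
    linarith
  unfold Phi
  have h6 : |(kk A : ℝ) * la s A| ≤ A.length := by
    rw [abs_mul, abs_of_nonneg h3.1]
    calc |(kk A : ℝ)| * la s A ≤ |(kk A : ℝ)| * 1 :=
          mul_le_mul_of_nonneg_left h3.2 (abs_nonneg _)
      _ ≤ _ := by rw [mul_one]; exact h2
  have h7 : |(lb s A - la s A) * U (kk A)| ≤ A.length + 1 := by
    rw [abs_mul]
    have h8 : |lb s A - la s A| ≤ 1 := by
      rw [abs_le]; constructor <;> linarith [h3.1, h3.2, h4.1, h4.2]
    calc |lb s A - la s A| * |U (kk A)| ≤ 1 * |U (kk A)| :=
          mul_le_mul_of_nonneg_right h8 (abs_nonneg _)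
      _ ≤ _ := by rw [one_mul]; exact h5
  calc |lC s A + kk A * la s A + (lb s A - la s A) * U (kk A)|
      ≤ |lC s A| + |(kk A : ℝ) * la s A| + |(lb s A - la s A) * U (kk A)| := abs_add_three _ _ _
    _ ≤ A.length + A.length + (A.length + 1) := by linarith
    _ = _ := by ring

/-- invariants along the actual history -/
theorem hist_inv {r : List SignType → ℝ} (hr : ∀ A, 0 < r A ∧ r A < 1) (s : Searcher) (n : ℕ) :
    la s (hist r s n) ≤ lb s (hist r s n) ∧
    ((0 : SignType) ∉ hist r s n → la s (hist r s n) < lb s (hist r s n)) := by
  induction n with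
  | zero => simp [hist, la, lb]
  | succ n ih =>
    have hc := cons_bp ih.1 (hr (hist r s n)).1 (hr (hist r s n)).2
    have h1 := ua_le_ub (g := (s (hist r s n) : ℝ)) hc ih.1
    rw [hist_succ, la_cons, lb_cons]
    unfold bp
    refine ⟨h1.1, fun h => ?_⟩
    rw [List.mem_cons, not_or] at h
    exact h1.2 (fun h' => h.1 h'.symm) (ih.2 h.2)

theorem measurable_guess (A : List SignType) : Measurable fun s : Searcher => ((s A : unitInterval) : ℝ) :=
  measurable_subtype_coe.comp (measurable_pi_apply A)

theorem measurable_la (A : List SignType) : Measurable fun s : Searcher => la s A := by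
  induction A with
  | nil => exact measurable_const
  | cons c A ih =>
    unfold la
    split_ifs
    · exact ih.max (measurable_guess A)
    · exact ih
    · exact measurable_guess A

theorem measurable_lb (A : List SignType) : Measurable fun s : Searcher => lb s A := by
  induction A with
  | nil => exact measurable_const
  | cons c A ih =>
    unfold lb
    split_ifs
    · exact ih
    · exact ih.min (measurable_guess A)
    · exact measurable_guess A

theorem measurable_lC (A : List SignType) : Measurable fun s : Searcher => lC s A := by
  induction A with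
  | nil => exact measurable_const
  | cons c A ih =>
    unfold lC
    split_ifs
    · exact ih.sub (measurable_guess A)
    · exact ih.add (measurable_guess A)
    · exact ih

theorem measurable_Phi (U : ℤ → ℝ) (A : List SignType) :
    Measurable fun s : Searcher => Phi s A U := by
  unfold Phi
  exact ((measurable_lC A).add ((measurable_la A).const_mul _)).add
    (((measurable_lb A).sub (measurable_la A)).mul_const _)

theorem measurable_bp (A : List SignType) (ρ : ℝ) : Measurable fun s : Searcher => bp s A ρ := by
  unfold bp
  exact (measurable_la A).add (((measurable_lb A).sub (measurable_la A)).mul_const _)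

theorem measurableSet_sign {α : Type*} [MeasurableSpace α] {f : α → ℝ} (hf : Measurable f)
    (c : SignType) : MeasurableSet {x | SignType.sign (f x) = c} := by
  rcases sign_cases c with rfl | rfl | rfl
  · simp only [sign_eq_one_iff]
    exact measurableSet_lt measurable_const hf
  · simp only [sign_eq_neg_one_iff]
    exact measurableSet_lt hf measurable_const
  · simp only [sign_eq_zero_iff]
    exact measurableSet_eq_fun hf measurable_const

theorem measurableSet_hist (r : List SignType → ℝ) (n : ℕ) (A : List SignType) :
    MeasurableSet {s : Searcher | hist r s n = A} := by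
  induction n generalizing A with
  | zero =>
    by_cases h : [] = A
    · simp [hist, h]
    · simp [hist, h]
  | succ n ih =>
    cases A with
    | nil =>
      have : {s : Searcher | hist r s (n + 1) = []} = ∅ := by
        ext s; simp [hist_succ]
      rw [this]; exact MeasurableSet.empty
    | cons c A =>
      have : {s : Searcher | hist r s (n + 1) = c :: A} =
          {s : Searcher | hist r s n = A} ∩
          {s : Searcher | SignType.sign (bp s A (r A) - s A) = c} := by
        ext s
        simp only [hist_succ, List.cons.injEq, Set.mem_ofPred_eq, Set.mem_inter_iff]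
        constructor
        · rintro ⟨h1, h2⟩
          rw [h2] at h1
          exact ⟨h2, h1⟩
        · rintro ⟨h1, h2⟩
          rw [h1]
          exact ⟨h2, rfl⟩
      rw [this]
      exact (ih A).inter (measurableSet_sign ((measurable_bp A _).sub (measurable_guess A)) c)

/-- the partition of the space of searchers by the history -/
theorem measurable_along (r : List SignType → ℝ) (n : ℕ) {f : Searcher → List SignType → ℝ}
    (hf : ∀ A, Measurable fun s => f s A) : Measurable fun s => f s (hist r s n) := by
  intro t ht
  have : (fun s => f s (hist r s n)) ⁻¹' t =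
      ⋃ A : List SignType, {s | hist r s n = A} ∩ (fun s => f s A) ⁻¹' t := by
    ext s
    simp
  rw [this]
  exact MeasurableSet.iUnion fun A => (measurableSet_hist r n A).inter (hf A ht)

theorem measurable_sgn_Phi (U : ℤ → ℝ) (A : List SignType) (ρ : ℝ) :
    Measurable fun s : Searcher => Phi s (SignType.sign (bp s A ρ - s A) :: A) U := by
  intro t ht
  have : (fun s : Searcher => Phi s (SignType.sign (bp s A ρ - s A) :: A) U) ⁻¹' t =
      ⋃ c : SignType, {s : Searcher | SignType.sign (bp s A ρ - s A) = c} ∩
        (fun s => Phi s (c :: A) U) ⁻¹' t := by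
    ext s
    simp
  rw [this]
  exact MeasurableSet.iUnion fun c =>
    (measurableSet_sign ((measurable_bp A _).sub (measurable_guess A)) c).inter
      (measurable_Phi U (c :: A) ht)

/-- choice of the relative position at the history `A` -/
theorem exists_rho (μ : Measure Searcher) [IsFiniteMeasure μ] {U : ℤ → ℝ} (hU : Adm U)
    (A : List SignType) (hA : ∀ᵐ s ∂μ, la s A < lb s A) :
    ∃ ρ : ℝ, 0 < ρ ∧ ρ < 1 ∧ (∀ᵐ s ∂μ, (s A : ℝ) ≠ bp s A ρ) ∧
      ∫ s, Phi s A (T U) ∂μ ≤ ∫ s, Phi s (SignType.sign (bp s A ρ - s A) :: A) U ∂μ := by
  set γ := gam U (kk A) with hγ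
  have g0 : 0 < γ := gam_pos hU.good _
  have g1 : γ < 1 := gam_lt_one hU.good _
  set S : Set Searcher := {s | la s A < lb s A} with hS
  have hSm : MeasurableSet S := measurableSet_lt (measurable_la A) (measurable_lb A)
  -- ties happen with positive probability only for countably many ρ
  let As : ℝ → Set Searcher := fun ρ => S ∩ {s : Searcher | (s A : ℝ) = bp s A ρ}
  have hAsm : ∀ ρ, MeasurableSet (As ρ) := fun ρ =>
    hSm.inter (measurableSet_eq_fun (measurable_guess A) (measurable_bp A ρ))
  have hdisj : Pairwise (Function.onFun Disjoint As) := by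
    intro ρ ρ' hne
    rw [Function.onFun, Set.disjoint_left]
    rintro s ⟨h1, h2⟩ ⟨_, h3⟩
    apply hne
    simp only [Set.mem_ofPred_eq] at h2 h3
    have h1' : la s A < lb s A := h1
    rw [h2] at h3
    unfold bp at h3
    have h4 : (lb s A - la s A) * ρ = (lb s A - la s A) * ρ' := by linarith
    exact mul_left_cancel₀ (by linarith) h4
  have hcount := Measure.countable_meas_pos_of_disjoint_iUnion (μ := μ) hAsm hdisj
  -- choose δ
  obtain ⟨δ, hδ0, hδ1, hδ⟩ : ∃ δ : ℝ, 0 < δ ∧ δ < min γ (1 - γ) ∧
      δ ∉ ((fun x => γ - x) ⁻¹' {ρ | 0 < μ (As ρ)} ∪ (fun x => γ + x) ⁻¹' {ρ | 0 < μ (As ρ)}) := by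
    have hc : ((fun x => γ - x) ⁻¹' {ρ | 0 < μ (As ρ)} ∪
        (fun x => γ + x) ⁻¹' {ρ | 0 < μ (As ρ)}).Countable := by
      apply Set.Countable.union
      · exact hcount.preimage_of_injOn (fun x _ y _ hxy => by
          have h : γ - x = γ - y := hxy
          linarith)
      · exact hcount.preimage_of_injOn (fun x _ y _ hxy => by
          have h : γ + x = γ + y := hxy
          linarith)
    obtain ⟨z, hz, h1, h2⟩ := (hc.dense_compl ℝ).exists_between
      (lt_min g0 (by linarith : 0 < 1 - γ))
    exact ⟨z, h1, h2, hz⟩
  have hδγ : δ < γ := lt_of_lt_of_le hδ1 (min_le_left _ _)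
  have hδγ' : δ < 1 - γ := lt_of_lt_of_le hδ1 (min_le_right _ _)
  have hnt : ∀ ρ, ρ ∉ {ρ | 0 < μ (As ρ)} → ∀ᵐ s ∂μ, (s A : ℝ) ≠ bp s A ρ := by
    intro ρ hρ
    have h0 : μ (As ρ) = 0 := by
      simpa using hρ
    have h1 : ∀ᵐ s ∂μ, s ∉ As ρ := measure_eq_zero_iff_ae_notMem.1 h0
    filter_upwards [h1, hA] with s hs1 hs2 heq
    exact hs1 ⟨hs2, heq⟩
  have hm := hnt (γ - δ) (fun h => hδ (Or.inl h))
  have hp := hnt (γ + δ) (fun h => hδ (Or.inr h))
  have hint : ∀ ρ, Integrable
      (fun s : Searcher => Phi s (SignType.sign (bp s A ρ - s A) :: A) U) μ := by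
    intro ρ
    apply Integrable.of_bound (measurable_sgn_Phi U A ρ).aestronglyMeasurable
      (3 * (A.length + 1 : ℕ) + 1)
    apply Eventually.of_forall
    intro s
    have := Phi_bound hU s (SignType.sign (bp s A ρ - s A) :: A)
    rw [List.length_cons] at this
    rw [Real.norm_eq_abs]
    exact this
  have hint0 : Integrable (fun s : Searcher => Phi s A (T U)) μ := by
    apply Integrable.of_bound (measurable_Phi _ A).aestronglyMeasurable
      (3 * (A.length : ℝ) + 1)
    exact Eventually.of_forall fun s => Phi_bound hU.T s A
  have t0 := th_pos hU.good (kk A)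
  have t1 := th_lt_one hU.good (kk A)
  have havg : ∫ s, Phi s A (T U) ∂μ ≤
      th U (kk A) * ∫ s, Phi s (SignType.sign (bp s A (γ - δ) - s A) :: A) U ∂μ +
      (1 - th U (kk A)) * ∫ s, Phi s (SignType.sign (bp s A (γ + δ) - s A) :: A) U ∂μ := by
    rw [← integral_const_mul, ← integral_const_mul, ← integral_add
      ((hint _).const_mul _) ((hint _).const_mul _)]
    apply integral_mono_ae hint0 (((hint _).const_mul _).add ((hint _).const_mul _))
    filter_upwards [hA, hm, hp] with s h1 h2 h3
    exact stage hU.good s A h1 hδ0 hδγ hδγ' h2 h3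
  by_cases hcase : ∫ s, Phi s A (T U) ∂μ ≤
      ∫ s, Phi s (SignType.sign (bp s A (γ - δ) - s A) :: A) U ∂μ
  · exact ⟨γ - δ, by linarith, by linarith, hm, hcase⟩
  · refine ⟨γ + δ, by linarith, by linarith, hp, ?_⟩
    push Not at hcase
    by_contra hcase2
    push Not at hcase2
    nlinarith

open Classical in
/-- The hider's relative positions against a given mixed searcher, for `n` rounds. -/
theorem exists_plan (σ : Measure Searcher) [IsProbabilityMeasure σ] (n : ℕ) :
    ∀ U : ℤ → ℝ, Adm U → ∃ r : List SignType → ℝ, (∀ A, 0 < r A ∧ r A < 1) ∧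
      (∀ᵐ s ∂σ, (0 : SignType) ∉ hist r s n) ∧
      (T^[n] U) 0 ≤ ∫ s, Phi s (hist r s n) U ∂σ := by
  induction n with
  | zero =>
    intro U hU
    refine ⟨fun _ => 1 / 2, fun _ => by norm_num, ?_, ?_⟩
    · simp [hist]
    · simp [hist, Phi, lC, kk, la, lb]
  | succ n ih =>
    intro U hU
    obtain ⟨r, hr, hz, hval⟩ := ih (T U) hU.T
    rw [← Function.iterate_succ_apply] at hval
    -- choose ρ at each history
    have hch : ∀ A : List SignType, ∃ ρ : ℝ, 0 < ρ ∧ ρ < 1 ∧
        (∀ᵐ s ∂(σ.restrict {s | hist r s n = A}), (s A : ℝ) ≠ bp s A ρ) ∧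
        ∫ s in {s | hist r s n = A}, Phi s A (T U) ∂σ ≤
          ∫ s in {s | hist r s n = A}, Phi s (SignType.sign (bp s A ρ - s A) :: A) U ∂σ := by
      intro A
      by_cases h0 : (0 : SignType) ∈ A
      · -- probability zero
        have hμ : σ.restrict {s | hist r s n = A} = 0 := by
          rw [Measure.restrict_eq_zero]
          have : {s | hist r s n = A} ⊆ {s | ¬ (0 : SignType) ∉ hist r s n} := by
            intro s hs
            simp only [Set.mem_ofPred_eq] at hs ⊢
            rw [hs]; exact not_not.2 h0
          exact measure_mono_null this hz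
        refine ⟨1 / 2, by norm_num, by norm_num, ?_, ?_⟩
        · rw [hμ]; simp
        · rw [hμ]; simp
      · apply exists_rho _ hU A
        rw [ae_restrict_iff' (measurableSet_hist r n A)]
        apply Eventually.of_forall
        intro s hs
        have := (hist_inv hr s n).2
        simp only [Set.mem_ofPred_eq] at hs
        rw [hs] at this
        exact this h0
    choose ρ hρ0 hρ1 hρt hρi using hch
    let r' : List SignType → ℝ := fun A => if A.length = n then ρ A else r A
    have hr' : ∀ A, 0 < r' A ∧ r' A < 1 := by
      intro A
      simp only [r']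
      split_ifs
      · exact ⟨hρ0 A, hρ1 A⟩
      · exact hr A
    have hh : ∀ s, hist r' s n = hist r s n := by
      intro s
      apply hist_congr
      intro A hA
      simp only [r']
      rw [if_neg (by omega)]
    have hh' : ∀ s, hist r' s (n + 1) =
        SignType.sign (bp s (hist r s n) (ρ (hist r s n)) - s (hist r s n)) :: hist r s n := by
      intro s
      rw [hist_succ, hh s]
      have : r' (hist r s n) = ρ (hist r s n) := by
        simp only [r']
        rw [if_pos (length_hist r s n)]
      rw [this]
    refine ⟨r', hr', ?_, ?_⟩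
    · -- no ties
      have h1 : ∀ A, ∀ᵐ s ∂σ, hist r s n = A → (s A : ℝ) ≠ bp s A (ρ A) := by
        intro A
        have := hρt A
        rw [ae_restrict_iff' (measurableSet_hist r n A)] at this
        exact this
      rw [← ae_all_iff] at h1
      filter_upwards [h1, hz] with s hs1 hs2
      rw [hh' s, List.mem_cons, not_or]
      refine ⟨?_, hs2⟩
      intro h
      rw [eq_comm, sign_eq_zero_iff] at h
      have := hs1 _ rfl
      apply this
      linarith
    · refine hval.trans ?_
      simp_rw [hh']
      have hU1 : Set.univ = ⋃ A : List SignType, {s : Searcher | hist r s n = A} := by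
        ext s; simp
      have hdisj : Pairwise (Function.onFun Disjoint
          fun A : List SignType => {s : Searcher | hist r s n = A}) := by
        intro A B hAB
        rw [Function.onFun, Set.disjoint_left]
        intro s h1 h2
        simp only [Set.mem_ofPred_eq] at h1 h2
        exact hAB (h1.symm.trans h2)
      have hi1 : Integrable (fun s => Phi s (hist r s n) (T U)) σ := by
        apply Integrable.of_bound
          (measurable_along r n (measurable_Phi (T U))).aestronglyMeasurable (3 * n + 1)
        apply Eventually.of_forall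
        intro s
        have := Phi_bound hU.T s (hist r s n)
        rw [length_hist] at this
        exact this
      have hi2 : Integrable (fun s => Phi s
          (SignType.sign (bp s (hist r s n) (ρ (hist r s n)) - s (hist r s n)) :: hist r s n)
            U) σ := by
        apply Integrable.of_bound (measurable_along r n
          (f := fun s A => Phi s (SignType.sign (bp s A (ρ A) - s A) :: A) U)
          (fun A => measurable_sgn_Phi U A (ρ A))).aestronglyMeasurable (3 * (n + 1) + 1)
        apply Eventually.of_forall
        intro s
        have := Phi_bound hU s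
          (SignType.sign (bp s (hist r s n) (ρ (hist r s n)) - s (hist r s n)) :: hist r s n)
        rw [List.length_cons, length_hist] at this
        push_cast at this
        exact this
      have s1 := hasSum_integral_iUnion (fun A => measurableSet_hist r n A) hdisj
        (hi1.integrableOn (s := ⋃ A : List SignType, {s : Searcher | hist r s n = A}))
      have s2 := hasSum_integral_iUnion (fun A => measurableSet_hist r n A) hdisj
        (hi2.integrableOn (s := ⋃ A : List SignType, {s : Searcher | hist r s n = A}))
      rw [← hU1, setIntegral_univ] at s1 s2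
      apply hasSum_le _ s1 s2
      intro A
      have e1 : ∫ s in {s : Searcher | hist r s n = A}, Phi s (hist r s n) (T U) ∂σ =
          ∫ s in {s : Searcher | hist r s n = A}, Phi s A (T U) ∂σ := by
        apply setIntegral_congr_fun (measurableSet_hist r n A)
        intro s hs
        simp only [Set.mem_ofPred_eq] at hs
        simp only [hs]
      have e2 : ∫ s in {s : Searcher | hist r s n = A}, Phi s
          (SignType.sign (bp s (hist r s n) (ρ (hist r s n)) - s (hist r s n)) :: hist r s n)
            U ∂σ =
          ∫ s in {s : Searcher | hist r s n = A},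
            Phi s (SignType.sign (bp s A (ρ A) - s A) :: A) U ∂σ := by
        apply setIntegral_congr_fun (measurableSet_hist r n A)
        intro s hs
        simp only [Set.mem_ofPred_eq] at hs
        simp only [hs]
      rw [e1, e2]
      exact hρi A

end Pool.Agent.Work.MP_b21e06_an
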