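import Mathlib
import Pool.Agent.Work.MP_b21e06_an.Values
import Pool.Agent.Work.MP_b21e06_an.Game
import Pool.Agent.Work.MP_b21e06_an.Upper
import Pool.Agent.Work.MP_b21e06_an.Stage
import Pool.Agent.Work.MP_b21e06_an.Choice

set_option autoImplicit false

open MeasureTheory Filter Topology
open scoped ENNReal NNReal

namespace Pool.Agent.Work.MP_b21e06_an

section
variable (r : List SignType → ℝ) (N : ℕ)

/-- the answers and the consistent interval computed from the guesses -/
noncomputable def gs : List unitInterval → List SignType × ℝ × ℝ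
  | [] => ([], 0, 1)
  | g :: G =>
    let x := gs G
    let c := SignType.sign (x.2.1 + (x.2.2 - x.2.1) * r x.1 - (g : ℝ))
    (c :: x.1, ua c x.2.1 g, ub c x.2.2 g)

/-- the moving position -/
noncomputable def gp (G : List unitInterval) : ℝ :=
  (gs r G).2.1 + ((gs r G).2.2 - (gs r G).2.1) * r (gs r G).1

/-- the position, frozen after `N` rounds -/
noncomputable def fp : List unitInterval → ℝ
  | [] => gp r []
  | g :: G => if G.length < N then gp r (g :: G) else fp G

variable {r N} (hr : ∀ A, 0 < r A ∧ r A < 1)
include hr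

theorem gs_inv (G : List unitInterval) : 0 ≤ (gs r G).2.1 ∧ (gs r G).2.1 ≤ (gs r G).2.2 ∧
    (gs r G).2.2 ≤ 1 := by
  induction G with
  | nil => simp [gs]
  | cons g G ih =>
    obtain ⟨h1, h2, h3⟩ := ih
    have hc := cons_bp h2 (hr (gs r G).1).1 (hr (gs r G).1).2
    refine ⟨ua_mem h1 g.2.1, (ua_le_ub hc h2).1, ub_mem h3 g.2.2⟩

theorem cons_gp (G : List unitInterval) : Cons (gs r G).2.1 (gs r G).2.2 (gp r G) :=
  cons_bp (gs_inv hr G).2.1 (hr _).1 (hr _).2

theorem gp_mem (G : List unitInterval) : 0 ≤ gp r G ∧ gp r G ≤ 1 := by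
  obtain ⟨h1, h2, h3⟩ := gs_inv hr G
  rcases cons_gp hr G with h | h
  · exact ⟨by linarith [h.1], by linarith [h.2]⟩
  · exact ⟨by linarith [h.1], by linarith [h.2]⟩

theorem fp_mem (G : List unitInterval) : 0 ≤ fp r N G ∧ fp r N G ≤ 1 := by
  induction G with
  | nil => exact gp_mem hr _
  | cons g G ih =>
    unfold fp
    split_ifs
    · exact gp_mem hr _
    · exact ih

omit hr in
theorem fp_eq_gp {G : List unitInterval} (h : G.length ≤ N) : fp r N G = gp r G := by
  cases G with
  | nil => rfl
  | cons g G =>
    unfold fp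
    rw [if_pos (by rw [List.length_cons] at h; omega)]

theorem cons_trans {g : unitInterval} {G : List unitInterval} {x : ℝ}
    (hx : Cons (gs r (g :: G)).2.1 (gs r (g :: G)).2.2 x) :
    Cons (gs r G).2.1 (gs r G).2.2 x ∧ SignType.sign (x - g) = SignType.sign (gp r G - g) :=
  cons_next (cons_gp hr G) hx

theorem cons_append (L G : List unitInterval) {x : ℝ}
    (hx : Cons (gs r (L ++ G)).2.1 (gs r (L ++ G)).2.2 x) :
    Cons (gs r G).2.1 (gs r G).2.2 x := by
  induction L with
  | nil => exact hx
  | cons g L ih => exact ih (cons_trans hr hx).1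

theorem cons_fp (L G : List unitInterval) (hG : G.length ≤ N) :
    Cons (gs r G).2.1 (gs r G).2.2 (fp r N (L ++ G)) := by
  induction L with
  | nil => rw [List.nil_append, fp_eq_gp hG]; exact cons_gp hr G
  | cons g L ih =>
    rw [List.cons_append]
    unfold fp
    split_ifs
    · exact cons_append hr (g :: L) G (cons_gp hr _)
    · exact ih

omit hr in
theorem fp_const {L G : List unitInterval} (hG : N ≤ G.length) : fp r N (L ++ G) = fp r N G := by
  induction L with
  | nil => rfl
  | cons g L ih =>
    rw [List.cons_append]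
    conv_lhs => unfold fp
    rw [if_neg (by rw [List.length_append]; omega), ih]

/-- the hider strategy -/
noncomputable def hider (r : List SignType → ℝ) (N : ℕ) (hr : ∀ A, 0 < r A ∧ r A < 1) : Hider where
  pos G := ⟨fp r N G, (fp_mem hr G).1, (fp_mem hr G).2⟩
  consistent L G g := by
    show SignType.sign (fp r N (L ++ g :: G) - g) = SignType.sign (fp r N G - g)
    rcases lt_or_ge G.length N with h | h
    · have h1 := cons_fp hr L (g :: G) (N := N) (by rw [List.length_cons]; omega)
      rw [(cons_trans hr h1).2, fp_eq_gp h.le]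
    · have e : L ++ g :: G = (L ++ [g]) ++ G := by simp
      rw [e, fp_const h]

end

theorem measurable_comp_list {α : Type*} [MeasurableSpace α] {f : α → List SignType}
    (hf : ∀ A, MeasurableSet {x | f x = A}) {F : α → List SignType → ℝ}
    (hF : ∀ A, Measurable fun x => F x A) : Measurable fun x => F x (f x) := by
  intro t ht
  have : (fun x => F x (f x)) ⁻¹' t =
      ⋃ A : List SignType, {x | f x = A} ∩ (fun x => F x A) ⁻¹' t := by
    ext s
    simp
  rw [this]
  exact MeasurableSet.iUnion fun A => (hf A).inter (hF A ht)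

theorem measurable_comp_sign {α : Type*} [MeasurableSpace α] {f : α → ℝ}
    (hf : Measurable f) {F : α → SignType → ℝ}
    (hF : ∀ c, Measurable fun x => F x c) : Measurable fun x => F x (SignType.sign (f x)) := by
  intro t ht
  have : (fun x => F x (SignType.sign (f x))) ⁻¹' t =
      ⋃ c : SignType, {x | SignType.sign (f x) = c} ∩ (fun x => F x c) ⁻¹' t := by
    ext s
    simp
  rw [this]
  exact MeasurableSet.iUnion fun c => (measurableSet_sign hf c).inter (hF c ht)

theorem measurable_gs (r : List SignType → ℝ) (n : ℕ) :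
    (∀ A, MeasurableSet {v : Fin n → unitInterval | (gs r (List.ofFn v)).1 = A}) ∧
    (Measurable fun v : Fin n → unitInterval => (gs r (List.ofFn v)).2.1) ∧
    (Measurable fun v : Fin n → unitInterval => (gs r (List.ofFn v)).2.2) := by
  induction n with
  | zero =>
    refine ⟨fun A => ?_, ?_, ?_⟩
    · simp only [List.ofFn_zero]
      exact MeasurableSet.const _
    · simp only [List.ofFn_zero]
      exact measurable_const
    · simp only [List.ofFn_zero]
      exact measurable_const
  | succ n ih =>
    obtain ⟨h1, h2, h3⟩ := ih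
    have htail : Measurable fun v : Fin (n + 1) → unitInterval => fun i : Fin n => v i.succ :=
      measurable_pi_lambda _ fun i => measurable_pi_apply _
    have hv0 : Measurable fun v : Fin (n + 1) → unitInterval => ((v 0 : unitInterval) : ℝ) :=
      measurable_subtype_coe.comp (measurable_pi_apply 0)
    have h1' : ∀ A, MeasurableSet {v : Fin (n + 1) → unitInterval |
        (gs r (List.ofFn fun i : Fin n => v i.succ)).1 = A} := fun A => htail (h1 A)
    have h2' : Measurable fun v : Fin (n + 1) → unitInterval =>
      (gs r (List.ofFn fun i : Fin n => v i.succ)).2.1 := h2.comp htail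
    have h3' : Measurable fun v : Fin (n + 1) → unitInterval =>
      (gs r (List.ofFn fun i : Fin n => v i.succ)).2.2 := h3.comp htail
    have hr' : Measurable fun v : Fin (n + 1) → unitInterval =>
        r (gs r (List.ofFn fun i : Fin n => v i.succ)).1 :=
      measurable_comp_list h1' (F := fun _ A => r A) fun A => measurable_const
    have hd : Measurable fun v : Fin (n + 1) → unitInterval =>
        (gs r (List.ofFn fun i : Fin n => v i.succ)).2.1 +
          ((gs r (List.ofFn fun i : Fin n => v i.succ)).2.2 -
            (gs r (List.ofFn fun i : Fin n => v i.succ)).2.1) *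
              r (gs r (List.ofFn fun i : Fin n => v i.succ)).1 - ((v 0 : unitInterval) : ℝ) :=
      (h2'.add ((h3'.sub h2').mul hr')).sub hv0
    refine ⟨fun A => ?_, ?_, ?_⟩
    · simp only [List.ofFn_succ, gs]
      cases A with
      | nil => simp
      | cons c A =>
        simp only [List.cons.injEq]
        exact (measurableSet_sign hd c).inter (h1' A)
    · simp only [List.ofFn_succ, gs]
      apply measurable_comp_sign hd
        (F := fun v c => ua c (gs r (List.ofFn fun i : Fin n => v i.succ)).2.1 (v 0))
      intro c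
      unfold ua
      split_ifs
      · exact h2'.max hv0
      · exact h2'
      · exact hv0
    · simp only [List.ofFn_succ, gs]
      apply measurable_comp_sign hd
        (F := fun v c => ub c (gs r (List.ofFn fun i : Fin n => v i.succ)).2.2 (v 0))
      intro c
      unfold ub
      split_ifs
      · exact h3'
      · exact h3'.min hv0
      · exact hv0

theorem measurable_gp (r : List SignType → ℝ) (n : ℕ) :
    Measurable fun v : Fin n → unitInterval => gp r (List.ofFn v) := by
  obtain ⟨h1, h2, h3⟩ := measurable_gs r n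
  unfold gp
  exact h2.add ((h3.sub h2).mul
    (measurable_comp_list h1 (F := fun _ A => r A) fun A => measurable_const))

theorem measurable_fp (r : List SignType → ℝ) (N n : ℕ) :
    Measurable fun v : Fin n → unitInterval => fp r N (List.ofFn v) := by
  induction n with
  | zero => simp only [List.ofFn_zero]; exact measurable_const
  | succ n ih =>
    have htail : Measurable fun v : Fin (n + 1) → unitInterval => fun i : Fin n => v i.succ :=
      measurable_pi_lambda _ fun i => measurable_pi_apply _
    have e : (fun v : Fin (n + 1) → unitInterval => fp r N (List.ofFn v)) =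
        fun v => if n < N then gp r (List.ofFn v) else fp r N (List.ofFn fun i : Fin n => v i.succ)
        := by
      funext v
      conv_lhs => rw [List.ofFn_succ]; unfold fp
      rw [List.length_ofFn, ← List.ofFn_succ]
    rw [e]
    split_ifs
    · exact measurable_gp r (n + 1)
    · exact ih.comp htail

theorem hider_measurable (r : List SignType → ℝ) (N : ℕ) (hr : ∀ A, 0 < r A ∧ r A < 1) :
    (hider r N hr).IsMeasurable := by
  intro n
  exact (measurable_fp r N n).subtype_mk

section
variable (r : List SignType → ℝ) (N : ℕ) (hr : ∀ A, 0 < r A ∧ r A < 1) (s : Searcher)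

theorem length_run_fst (τ : Hider) (n : ℕ) : (run s τ n).1.length = n := by
  induction n with
  | zero => rfl
  | succ n ih => rw [run_succ_fst, List.length_cons, ih]

theorem run_hist {n : ℕ} (hn : n ≤ N) :
    (run s (hider r N hr) n).2 = hist r s n ∧
    gs r (run s (hider r N hr) n).1 = (hist r s n, la s (hist r s n), lb s (hist r s n)) := by
  induction n with
  | zero => exact ⟨rfl, rfl⟩
  | succ n ih =>
    obtain ⟨h1, h2⟩ := ih (by omega)
    have h3 : (((hider r N hr).pos (run s (hider r N hr) n).1 : unitInterval) : ℝ) =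
        bp s (hist r s n) (r (hist r s n)) := by
      show fp r N (run s (hider r N hr) n).1 = _
      rw [fp_eq_gp (by rw [length_run_fst]; omega)]
      unfold gp bp
      rw [h2]
    constructor
    · rw [run_succ_snd, hist_succ]
      unfold ans hpos guess
      rw [h3, h1]
    · rw [run_succ_fst]
      simp only [gs, h2, h1]
      rfl

theorem hpos_eq {n : ℕ} (hn : n ≤ N) :
    hpos s (hider r N hr) n = bp s (hist r s n) (r (hist r s n)) := by
  have h2 := (run_hist r N hr s hn).2
  show fp r N (run s (hider r N hr) n).1 = _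
  rw [fp_eq_gp (by rw [length_run_fst]; omega)]
  unfold gp bp
  rw [h2]

theorem guess_hist {n : ℕ} (hn : n ≤ N) :
    guess s (hider r N hr) n = s (hist r s n) := by
  unfold guess
  rw [(run_hist r N hr s hn).1]

theorem hpos_const {n : ℕ} (hn : N ≤ n) :
    hpos s (hider r N hr) n = hpos s (hider r N hr) N := by
  obtain ⟨j, rfl⟩ := Nat.exists_eq_add_of_le hn
  obtain ⟨L, hL⟩ := run_append s (hider r N hr) N j
  show fp r N (run s (hider r N hr) (N + j)).1 = fp r N (run s (hider r N hr) N).1
  rw [hL, fp_const (by rw [length_run_fst])]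

include hr in
theorem cost_sum (n : ℕ) : ∀ x, Cons (la s (hist r s n)) (lb s (hist r s n)) x →
    ∑ i ∈ Finset.range n, |(s (hist r s i) : ℝ) - x| = lC s (hist r s n) + kk (hist r s n) * x := by
  induction n with
  | zero => intro x _; simp [hist, lC, kk]
  | succ n ih =>
    intro x hx
    have hc := cons_bp (hist_inv hr s n).1 (hr (hist r s n)).1 (hr (hist r s n)).2
    rw [hist_succ, la_cons, lb_cons] at hx
    unfold bp at hx
    obtain ⟨h1, h2⟩ := cons_next hc hx
    rw [Finset.sum_range_succ, ih x h1, hist_succ]
    unfold bp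
    rw [← h2]
    rcases lt_trichotomy (s (hist r s n) : ℝ) x with c | c | c
    · have e : SignType.sign (x - (s (hist r s n) : ℝ)) = 1 := by
        rw [sign_eq_one_iff]; linarith
      obtain ⟨p1, p2, p3, p4⟩ := pos_eqs s (hist r s n)
      rw [e, p3, p4, abs_of_neg (by linarith)]
      push_cast
      ring
    · have e : SignType.sign (x - (s (hist r s n) : ℝ)) = 0 := by
        rw [sign_eq_zero_iff]; linarith
      obtain ⟨p1, p2, p3, p4⟩ := zero_eqs s (hist r s n)
      rw [e, p3, p4, c]
      simp
    · have e : SignType.sign (x - (s (hist r s n) : ℝ)) = -1 := by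
        rw [sign_eq_neg_one_iff]; linarith
      obtain ⟨p1, p2, p3, p4⟩ := neg_eqs s (hist r s n)
      rw [e, p3, p4, abs_of_pos (by linarith)]
      push_cast
      ring

theorem payoff_ge : ENNReal.ofReal (lC s (hist r s N) +
    kk (hist r s N) * bp s (hist r s N) (r (hist r s N))) ≤ payoff s (hider r N hr) := by
  have hlim : Tendsto (hpos s (hider r N hr)) atTop
      (𝓝 (bp s (hist r s N) (r (hist r s N)))) := by
    apply tendsto_atTop_of_eventually_const (i₀ := N)
    intro i hi
    rw [hpos_const r N hr s hi, hpos_eq r N hr s le_rfl]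
  rw [payoff_of_tendsto _ _ hlim]
  refine le_trans ?_ (ENNReal.sum_le_tsum (Finset.range N))
  rw [← ENNReal.ofReal_sum_of_nonneg (fun i _ => abs_nonneg _)]
  apply ENNReal.ofReal_le_ofReal
  have hc := cons_bp (hist_inv hr s N).1 (hr (hist r s N)).1 (hr (hist r s N)).2
  have hcs := cost_sum r hr s N (bp s (hist r s N) (r (hist r s N))) hc
  rw [← hcs]
  apply le_of_eq
  apply Finset.sum_congr rfl
  intro i hi
  rw [guess_hist r N hr s (Finset.mem_range.1 hi).le]

end

theorem T_iter_mono {U W : ℤ → ℝ} (hU : ∀ k, base k ≤ U k) (hUW : ∀ k, U k ≤ W k) (n : ℕ) :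
    (∀ k, base k ≤ (T^[n] U) k) ∧ ∀ k, (T^[n] U) k ≤ (T^[n] W) k := by
  induction n with
  | zero => exact ⟨hU, hUW⟩
  | succ n ih =>
    rw [Function.iterate_succ_apply', Function.iterate_succ_apply']
    exact ⟨base_le_T ih.1, T_mono ih.1 ih.2⟩

theorem ofReal_integral_le {α : Type*} [MeasurableSpace α] {μ : Measure α} {f : α → ℝ}
    (hf : Integrable f μ) : ENNReal.ofReal (∫ x, f x ∂μ) ≤ ∫⁻ x, ENNReal.ofReal (f x) ∂μ := by
  have h1 : ∫ x, f x ∂μ ≤ ∫ x, max (f x) 0 ∂μ :=
    integral_mono hf hf.pos_part fun x => le_max_left _ _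
  have h2 := ofReal_integral_eq_lintegral_ofReal hf.pos_part
    (Eventually.of_forall fun x => le_max_right (f x) 0)
  calc ENNReal.ofReal (∫ x, f x ∂μ) ≤ ENNReal.ofReal (∫ x, max (f x) 0 ∂μ) :=
        ENNReal.ofReal_le_ofReal h1
    _ = ∫⁻ x, ENNReal.ofReal (max (f x) 0) ∂μ := h2
    _ = ∫⁻ x, ENNReal.ofReal (f x) ∂μ := by
        congr 1
        funext x
        rcases le_total (f x) 0 with h | h
        · rw [max_eq_right h, ENNReal.ofReal_zero, ENNReal.ofReal_of_nonpos h]
        · rw [max_eq_left h]

/-- the lower bound with an error term -/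
theorem lower_eps (σ : Measure Searcher) [IsProbabilityMeasure σ] (N : ℕ) {ε : ℝ} (hε : 0 < ε)
    (hε1 : ε < 1) :
    ENNReal.ofReal (Vn N 0 - ε * (1 + N)) ≤
      ⨆ (τ : Hider) (_ : τ.IsMeasurable), ∫⁻ s, payoff s τ ∂σ := by
  have hadm : Adm (fun k => base k + ε) :=
    ⟨fun k => by
      have : base k < base k + ε := by linarith
      exact this, fun k => by linarith⟩
  obtain ⟨r, hr, -, hval⟩ := exists_plan σ N _ hadm
  let r' : List SignType → ℝ := fun A => if A.length = N then (if 0 < kk A then 1 - ε else ε)
    else r A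
  have hr' : ∀ A, 0 < r' A ∧ r' A < 1 := by
    intro A
    simp only [r']
    split_ifs
    · constructor <;> linarith
    · exact ⟨hε, hε1⟩
    · exact hr A
  have hh : ∀ s, hist r' s N = hist r s N := by
    intro s
    apply hist_congr
    intro A hA
    simp only [r']
    rw [if_neg (by omega)]
  have hpt : ∀ s, Phi s (hist r s N) (fun k => base k + ε) - ε * (1 + N) ≤
      lC s (hist r' s N) + kk (hist r' s N) * bp s (hist r' s N) (r' (hist r' s N)) := by
    intro s
    rw [hh s]
    have hlen := length_hist r s N
    have hr1 : r' (hist r s N) = if 0 < kk (hist r s N) then 1 - ε else ε := by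
      simp only [r']; rw [if_pos hlen]
    have hab := (hist_inv hr s N).1
    have h3 := la_mem s (hist r s N)
    have h4 := lb_mem s (hist r s N)
    have hk := kk_mem (hist r s N)
    rw [hlen] at hk
    rw [hr1]
    unfold Phi bp
    set a := la s (hist r s N)
    set b := lb s (hist r s N)
    set k := kk (hist r s N)
    set C := lC s (hist r s N)
    rw [abs_le] at hk
    have hl0 : 0 ≤ b - a := by linarith
    have hl1 : b - a ≤ 1 := by linarith [h3.1, h4.2]
    beta_reduce
    split_ifs with hk0
    · have hk0' : (0 : ℝ) < k := by exact_mod_cast hk0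
      have e : base k = k := by unfold base; exact max_eq_left hk0'.le
      rw [e]
      have e1 : (k : ℝ) * ((b - a) * ε) ≤ N * (1 * ε) := by
        apply mul_le_mul hk.2 _ (by positivity) (by positivity)
        exact mul_le_mul_of_nonneg_right hl1 hε.le
      have e2 : (b - a) * ε ≤ 1 * ε := mul_le_mul_of_nonneg_right hl1 hε.le
      nlinarith
    · have hk0' : (k : ℝ) ≤ 0 := by
        have : k ≤ 0 := by omega
        exact_mod_cast this
      have e : base k = 0 := by unfold base; exact max_eq_right hk0'
      rw [e]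
      have e1 : (-k : ℝ) * ((b - a) * ε) ≤ N * (1 * ε) := by
        apply mul_le_mul (by linarith [hk.1]) _ (by positivity) (by positivity)
        exact mul_le_mul_of_nonneg_right hl1 hε.le
      have e2 : (b - a) * ε ≤ 1 * ε := mul_le_mul_of_nonneg_right hl1 hε.le
      nlinarith
  refine le_trans ?_ (le_iSup₂ (hider r' N hr') (hider_measurable r' N hr'))
  have hi1 : Integrable (fun s => Phi s (hist r s N) (fun k => base k + ε)) σ := by
    apply Integrable.of_bound
      (measurable_along r N (measurable_Phi _)).aestronglyMeasurable (3 * N + 1)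
    apply Eventually.of_forall
    intro s
    have := Phi_bound hadm s (hist r s N)
    rw [length_hist] at this
    exact this
  have hi2 : Integrable (fun s => Phi s (hist r s N) (fun k => base k + ε) - ε * (1 + N)) σ :=
    hi1.sub (integrable_const _)
  have h1 : Vn N 0 ≤ (T^[N] (fun k => base k + ε)) 0 :=
    (T_iter_mono (U := base) (W := fun k => base k + ε) (fun _ => le_rfl)
      (fun k => by linarith) N).2 0
  have h2 : Vn N 0 - ε * (1 + N) ≤
      ∫ s, (Phi s (hist r s N) (fun k => base k + ε) - ε * (1 + N)) ∂σ := by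
    rw [integral_sub hi1 (integrable_const _)]
    simp only [integral_const, smul_eq_mul, probReal_univ, one_mul]
    linarith
  calc ENNReal.ofReal (Vn N 0 - ε * (1 + N))
      ≤ ENNReal.ofReal (∫ s, (Phi s (hist r s N) (fun k => base k + ε) - ε * (1 + N)) ∂σ) :=
        ENNReal.ofReal_le_ofReal h2
    _ ≤ ∫⁻ s, ENNReal.ofReal (Phi s (hist r s N) (fun k => base k + ε) - ε * (1 + N)) ∂σ :=
        ofReal_integral_le hi2
    _ ≤ ∫⁻ s, payoff s (hider r' N hr') ∂σ := by
        apply lintegral_mono
        intro s
        exact (ENNReal.ofReal_le_ofReal (hpt s)).trans (payoff_ge r' N hr' s)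

/-- No mixed searcher strategy does better than `V 0`. -/
theorem lower (σ : Measure Searcher) [IsProbabilityMeasure σ] :
    ENNReal.ofReal (V 0) ≤ ⨆ (τ : Hider) (_ : τ.IsMeasurable), ∫⁻ s, payoff s τ ∂σ := by
  have hlim : Tendsto (fun n : ℕ => ENNReal.ofReal (Vn n 0 - (1 / ((n : ℝ) + 1)) ^ 2 / 2 * (1 + n)))
      atTop (𝓝 (ENNReal.ofReal (V 0 - 0))) := by
    apply ENNReal.tendsto_ofReal
    apply (tendsto_Vn 0).sub
    have e : (fun n : ℕ => (1 / ((n : ℝ) + 1)) ^ 2 / 2 * (1 + n)) =
        fun n : ℕ => (1 / 2) * (1 / ((n : ℝ) + 1)) := by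
      funext n
      field_simp
      ring
    rw [e]
    have := (tendsto_one_div_add_atTop_nhds_zero_nat (𝕜 := ℝ)).const_mul (1 / 2)
    rwa [mul_zero] at this
  rw [sub_zero] at hlim
  apply le_of_tendsto' hlim
  intro n
  have h1 : (1 / ((n : ℝ) + 1)) ≤ 1 := by
    rw [div_le_one (by positivity)]
    have : (0 : ℝ) ≤ n := by positivity
    linarith
  have h0 : 0 < (1 / ((n : ℝ) + 1)) := by positivity
  exact lower_eps σ n (by positivity) (by nlinarith)

end Pool.Agent.Work.MP_b21e06_an
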