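import Mathlib
import Pool.Agent.Work.MP_b21e06_an.Values
import Pool.Agent.Work.MP_b21e06_an.Game
import Pool.Agent.Work.MP_b21e06_an.Upper

set_option autoImplicit false

open MeasureTheory Filter Topology
open scoped ENNReal NNReal

namespace Pool.Agent.Work.MP_b21e06_an

/-- guess in a state -/
noncomputable def mg (lam : ℤ → ℝ) (x : ℝ × ℝ × ℤ) : ℝ :=
  lam x.2.2 * x.1 + (1 - lam x.2.2) * x.2.1

/-- one step of the strategy against a fixed number -/
noncomputable def mstep (lam : ℤ → ℝ) (h : ℝ) (x : ℝ × ℝ × ℤ) : ℝ × ℝ × ℤ :=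
  if mg lam x < h then (mg lam x, x.2.1, x.2.2 + 1)
  else if h < mg lam x then (x.1, mg lam x, x.2.2 - 1)
  else (mg lam x, mg lam x, x.2.2)

/-- the payoff from a state -/
noncomputable def F (lam : ℤ → ℝ) (h : ℝ) (x : ℝ × ℝ × ℤ) : ℝ≥0∞ :=
  ∑' n : ℕ, ENNReal.ofReal |mg lam ((mstep lam h)^[n] x) - h|

theorem F_step (lam : ℤ → ℝ) (h : ℝ) (x : ℝ × ℝ × ℤ) :
    F lam h x = ENNReal.ofReal |mg lam x - h| + F lam h (mstep lam h x) := by
  unfold F
  rw [tsum_eq_zero_add' ENNReal.summable]
  simp only [Function.iterate_zero, id_eq, Function.iterate_succ_apply]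

/-- rescaling -/
noncomputable def sc (A B : ℝ) (x : ℝ × ℝ × ℤ) : ℝ × ℝ × ℤ :=
  (A + (B - A) * x.1, A + (B - A) * x.2.1, x.2.2)

theorem mg_sc (lam : ℤ → ℝ) (A B : ℝ) (x : ℝ × ℝ × ℤ) :
    mg lam (sc A B x) = A + (B - A) * mg lam x := by
  unfold mg sc; ring

theorem mstep_sc (lam : ℤ → ℝ) {A B : ℝ} (hAB : A < B) (u : ℝ) (x : ℝ × ℝ × ℤ) :
    mstep lam (A + (B - A) * u) (sc A B x) = sc A B (mstep lam u x) := by
  have h1 : mg lam (sc A B x) < A + (B - A) * u ↔ mg lam x < u := by
    rw [mg_sc]
    constructor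
    · intro h
      have : (B - A) * mg lam x < (B - A) * u := by linarith
      exact lt_of_mul_lt_mul_left this (by linarith)
    · intro h
      have := mul_lt_mul_of_pos_left h (by linarith : 0 < B - A)
      linarith
  have h2 : A + (B - A) * u < mg lam (sc A B x) ↔ u < mg lam x := by
    rw [mg_sc]
    constructor
    · intro h
      have : (B - A) * u < (B - A) * mg lam x := by linarith
      exact lt_of_mul_lt_mul_left this (by linarith)
    · intro h
      have := mul_lt_mul_of_pos_left h (by linarith : 0 < B - A)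
      linarith
  unfold mstep
  by_cases c1 : mg lam x < u
  · rw [if_pos c1, if_pos (h1.2 c1), mg_sc]
    rfl
  · rw [if_neg c1, if_neg (fun h => c1 (h1.1 h))]
    by_cases c2 : u < mg lam x
    · rw [if_pos c2, if_pos (h2.2 c2), mg_sc]
      rfl
    · rw [if_neg c2, if_neg (fun h => c2 (h2.1 h)), mg_sc]
      rfl

theorem F_sc (lam : ℤ → ℝ) {A B : ℝ} (hAB : A < B) (u : ℝ) (x : ℝ × ℝ × ℤ) :
    F lam (A + (B - A) * u) (sc A B x) = ENNReal.ofReal (B - A) * F lam u x := by
  have hit : ∀ n : ℕ, (mstep lam (A + (B - A) * u))^[n] (sc A B x) =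
      sc A B ((mstep lam u)^[n] x) := by
    intro n
    induction n with
    | zero => rfl
    | succ n ih => rw [Function.iterate_succ_apply', Function.iterate_succ_apply', ih,
        mstep_sc lam hAB]
  unfold F
  rw [← ENNReal.tsum_mul_left]
  congr 1
  funext n
  rw [hit, mg_sc, ← ENNReal.ofReal_mul (by linarith)]
  congr 1
  have : A + (B - A) * mg lam ((mstep lam u)^[n] x) - (A + (B - A) * u) =
      (B - A) * (mg lam ((mstep lam u)^[n] x) - u) := by ring
  rw [this, abs_mul, abs_of_pos (by linarith : 0 < B - A)]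

theorem alpernState_cons (lam : ℤ → ℝ) (h : ℝ) (A : List SignType) :
    alpernState lam (SignType.sign (h - mg lam (alpernState lam A)) :: A) =
      mstep lam h (alpernState lam A) := by
  rcases lt_trichotomy (mg lam (alpernState lam A)) h with c | c | c
  · have e : SignType.sign (h - mg lam (alpernState lam A)) = 1 := by
      rw [sign_eq_one_iff]; linarith
    rw [e]
    unfold mstep
    rw [if_pos c]
    simp [alpernState, mg]
  · have e : SignType.sign (h - mg lam (alpernState lam A)) = 0 := by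
      rw [sign_eq_zero_iff]; linarith
    rw [e]
    unfold mstep
    rw [if_neg (by linarith), if_neg (by linarith)]
    simp [alpernState, mg, show ¬ ((0 : SignType) = 1) by decide,
      show ¬ ((0 : SignType) = -1) by decide]
  · have e : SignType.sign (h - mg lam (alpernState lam A)) = -1 := by
      rw [sign_eq_neg_one_iff]; linarith
    rw [e]
    unfold mstep
    rw [if_neg (by linarith), if_pos c]
    simp [alpernState, mg, show ¬ ((-1 : SignType) = 1) by decide]

section
variable {lam : ℤ → ℝ} (hlam : ∀ k, 0 < lam k ∧ lam k < 1)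
include hlam

theorem payoff_eq_F (h : unitInterval) :
    payoff (alpern lam) (Hider.still h) = F lam h (0, 1, 0) := by
  have hx : Tendsto (hpos (alpern lam) (Hider.still h)) atTop (𝓝 (h : ℝ)) := tendsto_const_nhds
  rw [payoff_of_tendsto _ _ hx]
  have hst : ∀ n, alpernState lam (run (alpern lam) (Hider.still h) n).2 =
      (mstep lam h)^[n] (0, 1, 0) := by
    intro n
    induction n with
    | zero => rfl
    | succ n ih =>
      rw [Function.iterate_succ_apply', ← ih, run_succ_snd]
      have hg : guess (alpern lam) (Hider.still h) n =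
          mg lam (alpernState lam (run (alpern lam) (Hider.still h) n).2) :=
        guess_eq hlam _ _
      have ha : ans (alpern lam) (Hider.still h) n = SignType.sign ((h : ℝ) -
          mg lam (alpernState lam (run (alpern lam) (Hider.still h) n).2)) := by
        rw [← hg]; rfl
      rw [ha, alpernState_cons]
  unfold F
  congr 1
  funext n
  rw [guess_eq hlam, ← hst]
  rfl

end

/-- From the state `k` on the unit interval, the payoff is affine off a countable set. -/
def Aff (lam : ℤ → ℝ) (k : ℤ) (c : ℝ) : Prop :=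
  ∃ S : Set ℝ, S.Countable ∧ ∀ u : ℝ, 0 < u → u < 1 → u ∉ S →
    0 ≤ c - k * u ∧ F lam u (0, 1, k) = ENNReal.ofReal (c - k * u)

theorem exists_off {S : Set ℝ} (hS : S.Countable) {x y : ℝ} (hxy : x < y) :
    ∃ z, x < z ∧ z < y ∧ z ∉ S := by
  obtain ⟨z, hz, h1, h2⟩ := (hS.dense_compl ℝ).exists_between hxy
  exact ⟨z, h1, h2, hz⟩

theorem Aff.unique {lam : ℤ → ℝ} {k : ℤ} {c c' : ℝ} (h : Aff lam k c) (h' : Aff lam k c') :
    c = c' := by
  obtain ⟨S, hS, H⟩ := h
  obtain ⟨S', hS', H'⟩ := h'
  obtain ⟨z, h1, h2, hz⟩ := exists_off (hS.union hS') (zero_lt_one (α := ℝ))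
  obtain ⟨a1, a2⟩ := H z h1 h2 (fun h => hz (Or.inl h))
  obtain ⟨b1, b2⟩ := H' z h1 h2 (fun h => hz (Or.inr h))
  rw [a2] at b2
  have := (ENNReal.ofReal_eq_ofReal_iff a1 b1).1 b2
  linarith

theorem Aff.base_le {lam : ℤ → ℝ} {k : ℤ} {c : ℝ} (h : Aff lam k c) : base k ≤ c := by
  obtain ⟨S, hS, H⟩ := h
  apply max_le
  · by_contra hc
    push Not at hc
    rcases le_or_gt (k : ℝ) 0 with hk | hk
    · obtain ⟨z, h1, h2, hz⟩ := exists_off hS (zero_lt_one (α := ℝ))
      have := (H z h1 h2 hz).1
      nlinarith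
    · have h3 : max 0 (c / k) < 1 := by
        apply max_lt zero_lt_one
        rw [div_lt_one hk]; exact hc
      obtain ⟨z, h1, h2, hz⟩ := exists_off hS h3
      have h4 := (H z (lt_of_le_of_lt (le_max_left _ _) h1) h2 hz).1
      have h5 : c / k < z := lt_of_le_of_lt (le_max_right _ _) h1
      rw [div_lt_iff₀ hk] at h5
      linarith
  · by_contra hc
    push Not at hc
    rcases le_or_gt 0 (k : ℝ) with hk | hk
    · obtain ⟨z, h1, h2, hz⟩ := exists_off hS (zero_lt_one (α := ℝ))
      have := (H z h1 h2 hz).1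
      nlinarith
    · have h3 : 0 < min 1 (c / k) := lt_min zero_lt_one (div_pos_of_neg_of_neg hc hk)
      obtain ⟨z, h1, h2, hz⟩ := exists_off hS h3
      have h4 := (H z h1 (lt_of_lt_of_le h2 (min_le_left _ _)) hz).1
      have h5 : z < c / k := lt_of_lt_of_le h2 (min_le_right _ _)
      rw [lt_div_iff_of_neg hk] at h5
      linarith

section
variable {lam : ℤ → ℝ} (hlam : ∀ k, 0 < lam k ∧ lam k < 1)
include hlam

theorem Aff.high {k : ℤ} {c : ℝ} (h : Aff lam k c) :
    Aff lam (k + 1) ((c - k * (1 - lam k)) / lam k) := by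
  obtain ⟨S, hS, H⟩ := h
  obtain ⟨l0, l1⟩ := hlam k
  refine ⟨(fun u => (1 - lam k) + (1 - (1 - lam k)) * u) ⁻¹' S, ?_, ?_⟩
  · apply hS.preimage_of_injOn
    intro x _ y _ hxy
    simp only at hxy
    have : lam k * x = lam k * y := by linarith
    exact mul_left_cancel₀ l0.ne' this
  · intro u hu0 hu1 huS
    set U := (1 - lam k) + (1 - (1 - lam k)) * u with hU
    have hU' : U = (1 - lam k) + lam k * u := by rw [hU]; ring
    have hlu : 0 < lam k * u := mul_pos l0 hu0
    have hU0 : 0 < U := by rw [hU']; linarith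
    have hU1 : U < 1 := by rw [hU']; nlinarith
    obtain ⟨a1, a2⟩ := H U hU0 hU1 huS
    rw [F_step] at a2
    have hmg : mg lam (0, 1, k) = 1 - lam k := by simp [mg]
    have hms : mstep lam U (0, 1, k) = sc (1 - lam k) 1 (0, 1, k + 1) := by
      unfold mstep
      rw [hmg, if_pos (by rw [hU']; linarith)]
      simp [sc]
    rw [hms, hmg, hU, F_sc lam (by linarith), ← hU] at a2
    have e1 : |1 - lam k - U| = lam k * u := by
      rw [hU', abs_of_neg (by linarith)]; ring
    have e2 : (1 - (1 - lam k)) = lam k := by ring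
    rw [e1, e2] at a2
    have hge : lam k * u ≤ c - k * U := by
      by_contra hc
      push Not at hc
      have h1 : ENNReal.ofReal (lam k * u) ≤ ENNReal.ofReal (c - k * U) := by
        rw [← a2]; exact le_self_add
      rw [ENNReal.ofReal_le_ofReal_iff a1] at h1
      linarith
    have hc' : (c - k * (1 - lam k)) / lam k - ((k + 1 : ℤ) : ℝ) * u =
        ((c - k * U) - lam k * u) / lam k := by
      rw [hU']
      push_cast
      field_simp
      ring
    rw [hc']
    refine ⟨div_nonneg (by linarith) l0.le, ?_⟩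
    have e3 : ENNReal.ofReal (c - k * U) =
        ENNReal.ofReal (lam k * u) + ENNReal.ofReal (c - k * U - lam k * u) := by
      rw [← ENNReal.ofReal_add hlu.le (by linarith)]
      congr 1; ring
    rw [e3] at a2
    have e4 := (ENNReal.add_right_inj ENNReal.ofReal_ne_top).1 a2
    have hl : ENNReal.ofReal (lam k) ≠ 0 := by
      rw [Ne, ENNReal.ofReal_eq_zero, not_le]; exact l0
    rw [ENNReal.ofReal_div_of_pos l0, ENNReal.eq_div_iff hl ENNReal.ofReal_ne_top]
    exact e4

theorem Aff.low {k : ℤ} {c : ℝ} (h : Aff lam k c) :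
    Aff lam (k - 1) (c / (1 - lam k) - 1) := by
  obtain ⟨S, hS, H⟩ := h
  obtain ⟨l0, l1⟩ := hlam k
  have g0 : 0 < 1 - lam k := by linarith
  refine ⟨(fun u => 0 + ((1 - lam k) - 0) * u) ⁻¹' S, ?_, ?_⟩
  · apply hS.preimage_of_injOn
    intro x _ y _ hxy
    simp only at hxy
    have : (1 - lam k) * x = (1 - lam k) * y := by linarith
    exact mul_left_cancel₀ g0.ne' this
  · intro u hu0 hu1 huS
    set U := 0 + ((1 - lam k) - 0) * u with hU
    have hU' : U = (1 - lam k) * u := by rw [hU]; ring
    have hU0 : 0 < U := by rw [hU']; positivity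
    have hUg : U < 1 - lam k := by rw [hU']; nlinarith
    have hU1 : U < 1 := by linarith
    obtain ⟨a1, a2⟩ := H U hU0 hU1 huS
    rw [F_step] at a2
    have hmg : mg lam (0, 1, k) = 1 - lam k := by simp [mg]
    have hms : mstep lam U (0, 1, k) = sc 0 (1 - lam k) (0, 1, k - 1) := by
      unfold mstep
      rw [hmg, if_neg (by linarith), if_pos (by linarith)]
      simp [sc]
    rw [hms, hmg, hU, F_sc lam (by linarith), ← hU] at a2
    have e1 : |1 - lam k - U| = (1 - lam k) * (1 - u) := by
      rw [abs_of_pos (by linarith), hU']; ring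
    have e2 : (1 - lam k - 0) = 1 - lam k := by ring
    rw [e1, e2] at a2
    have hpos : 0 ≤ (1 - lam k) * (1 - u) := mul_nonneg g0.le (by linarith)
    have hge : (1 - lam k) * (1 - u) ≤ c - k * U := by
      by_contra hc
      push Not at hc
      have h1 : ENNReal.ofReal ((1 - lam k) * (1 - u)) ≤ ENNReal.ofReal (c - k * U) := by
        rw [← a2]; exact le_self_add
      rw [ENNReal.ofReal_le_ofReal_iff a1] at h1
      linarith
    have hc' : c / (1 - lam k) - 1 - ((k - 1 : ℤ) : ℝ) * u =
        ((c - k * U) - (1 - lam k) * (1 - u)) / (1 - lam k) := by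
      rw [hU']
      push_cast
      field_simp
      ring
    rw [hc']
    refine ⟨div_nonneg (by linarith) g0.le, ?_⟩
    have e3 : ENNReal.ofReal (c - k * U) = ENNReal.ofReal ((1 - lam k) * (1 - u)) +
        ENNReal.ofReal (c - k * U - (1 - lam k) * (1 - u)) := by
      rw [← ENNReal.ofReal_add hpos (by linarith)]
      congr 1; ring
    rw [e3] at a2
    have e4 := (ENNReal.add_right_inj ENNReal.ofReal_ne_top).1 a2
    have hl : ENNReal.ofReal (1 - lam k) ≠ 0 := by
      rw [Ne, ENNReal.ofReal_eq_zero, not_le]; exact g0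
    rw [ENNReal.ofReal_div_of_pos g0, ENNReal.eq_div_iff hl ENNReal.ofReal_ne_top]
    exact e4

end

theorem aff_zero {lam : ℤ → ℝ} {v : ℝ≥0} (h : IsAlpern lam v) : Aff lam 0 v := by
  obtain ⟨hlam, H⟩ := h
  refine ⟨Set.range fun A : List SignType => ((alpern lam A : unitInterval) : ℝ),
    Set.countable_range _, ?_⟩
  intro u hu0 hu1 hu
  have h1 := H ⟨u, hu0.le, hu1.le⟩ (fun A hA => hu ⟨A, by simp only [hA]⟩)
  rw [payoff_eq_F hlam] at h1
  simp only [Int.cast_zero, zero_mul, sub_zero, NNReal.zero_le_coe, ENNReal.ofReal_coe_nnreal,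
    true_and]
  exact h1

/-- The parameters and the value of Alpern's strategy are unique. -/
theorem IsAlpern.eq {lam : ℤ → ℝ} {v : ℝ≥0} (h : IsAlpern lam v) :
    lam = lamV ∧ (v : ℝ) = V 0 := by
  have h0 := aff_zero h
  obtain ⟨hlam, -⟩ := h
  have hall : ∀ k : ℤ, ∃ c, Aff lam k c := by
    intro k
    induction k using Int.induction_on with
    | zero => exact ⟨_, h0⟩
    | succ n ih =>
      obtain ⟨c, hc⟩ := ih
      exact ⟨_, hc.high hlam⟩
    | pred n ih =>
      obtain ⟨c, hc⟩ := ih
      exact ⟨_, hc.low hlam⟩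
  choose V' hV' using hall
  have hlow : ∀ k, V' k = (1 - lam k) * (1 + V' (k - 1)) := by
    intro k
    have g0 : 0 < 1 - lam k := by linarith [(hlam k).2]
    have := ((hV' k).low hlam).unique (hV' (k - 1))
    rw [← this]
    field_simp
    ring
  have hhigh : ∀ k : ℤ, V' k = k * (1 - lam k) + (1 - (1 - lam k)) * V' (k + 1) := by
    intro k
    have l0 := (hlam k).1
    have := ((hV' k).high hlam).unique (hV' (k + 1))
    rw [← this]
    field_simp
    ring
  obtain ⟨e1, e2⟩ := unique_rec (g := fun k => 1 - lam k) (V' := V')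
    (fun k => by linarith [(hlam k).2]) (fun k => by linarith [(hlam k).1])
    (fun k => (hV' k).base_le) hlow hhigh
  constructor
  · funext k
    have : 1 - lam k = gam V k := congrFun e2 k
    unfold lamV
    linarith
  · rw [← e1]
    exact h0.unique (hV' 0)

end Pool.Agent.Work.MP_b21e06_an
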